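import Pool.Agent.Run7.h615.WS.Scal
import Pool.Agent.Y143.Defs

/-!
# Traces on the generalized eigenspaces of a Frobenius
-/

set_option autoImplicit false
set_option linter.unusedSectionVars false

namespace Run7.h615.WS

open Polynomial Module
open scoped ComplexConjugate

variable {Ω : Type*} [Field Ω] {V : Type*} [AddCommGroup V] [Module Ω V]

/-- Orthogonality of the generalized eigenspaces. -/
lemma orth_gen (G : Module.End Ω V) (B : V →ₗ[Ω] V →ₗ[Ω] Ω) {κ : Ω}
    (hB : ∀ x y, B (G x) (G y) = κ * B x y) {μ ν : Ω} (h : μ * ν ≠ κ) : ∀ {x y : V},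
    x ∈ G.maxGenEigenspace μ → y ∈ G.maxGenEigenspace ν → B x y = 0 := by
  have key : ∀ N k l : ℕ, k + l ≤ N → ∀ x y : V, ((G - μ • (1 : Module.End Ω V)) ^ k) x = 0 →
      ((G - ν • (1 : Module.End Ω V)) ^ l) y = 0 → B x y = 0 := by
    intro N
    induction N with
    | zero =>
      intro k l hkl x y hx _
      obtain rfl : k = 0 := by omega
      have : x = 0 := hx
      rw [this, map_zero, LinearMap.zero_apply]
    | succ N ih =>
      intro k l hkl x y hx hy
      rcases Nat.eq_zero_or_pos k with rfl | hk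
      · have : x = 0 := hx
        rw [this, map_zero, LinearMap.zero_apply]
      rcases Nat.eq_zero_or_pos l with rfl | hl
      · have : y = 0 := hy
        rw [this, map_zero]
      obtain ⟨k, rfl⟩ : ∃ k', k = k' + 1 := ⟨k - 1, by omega⟩
      obtain ⟨l, rfl⟩ : ∃ l', l = l' + 1 := ⟨l - 1, by omega⟩
      set x' := (G - μ • (1 : Module.End Ω V)) x with hx'
      set y' := (G - ν • (1 : Module.End Ω V)) y with hy'
      have h1 : G x = μ • x + x' := by
        rw [hx']
        simp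
      have h2 : G y = ν • y + y' := by
        rw [hy']
        simp
      rw [pow_succ, Module.End.mul_apply, ← hx'] at hx
      have hy2 := hy
      rw [pow_succ, Module.End.mul_apply, ← hy'] at hy
      have e1 := ih k (l + 1) (by omega) x' y hx hy2
      have e2 := ih k l (by omega) x' y' hx hy
      have e3 : B x y' = 0 := by
        apply ih (k + 1) l (by omega) x y' _ hy
        rw [pow_succ, Module.End.mul_apply, ← hx', hx]
      have h3 := hB x y
      rw [h1, h2] at h3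
      simp only [map_add, LinearMap.add_apply, map_smul, LinearMap.smul_apply, smul_eq_mul, e1, e2,
        e3, mul_zero, add_zero] at h3
      have h4 : (μ * ν - κ) * B x y = 0 := by linear_combination h3
      rcases mul_eq_zero.1 h4 with h5 | h5
      · exact absurd (sub_eq_zero.1 h5) h
      · exact h5
  intro x y hx hy
  obtain ⟨k, hk⟩ := Module.End.mem_maxGenEigenspace _ _ _ |>.1 hx
  obtain ⟨l, hl⟩ := Module.End.mem_maxGenEigenspace _ _ _ |>.1 hy
  exact key (k + l) k l le_rfl x y hk hl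

lemma exists_eig (G : Module.End Ω V) {μ : Ω} : ∀ (k : ℕ) (x : V), x ≠ 0 →
    ((G - μ • (1 : Module.End Ω V)) ^ k) x = 0 → ∃ y : V, y ≠ 0 ∧ G y = μ • y := by
  intro k
  induction k with
  | zero => exact fun x hx h => absurd h hx
  | succ k ih =>
    intro x hx h
    by_cases h1 : (G - μ • (1 : Module.End Ω V)) x = 0
    · refine ⟨x, hx, ?_⟩
      have : G x - μ • x = 0 := h1
      exact sub_eq_zero.1 this
    · rw [pow_succ, Module.End.mul_apply] at h
      exact ih _ h1 h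

variable [FiniteDimensional Ω V]

lemma trace_line {e : V} (he : e ≠ 0) (hV : ∀ x : V, ∃ c : Ω, x = c • e) (f : Module.End Ω V)
    {c : Ω} (hf : f e = c • e) : LinearMap.trace Ω V f = c := by
  have h1 : f = c • (LinearMap.id : V →ₗ[Ω] V) := by
    ext x
    obtain ⟨d, rfl⟩ := hV x
    rw [map_smul, hf, LinearMap.smul_apply, LinearMap.id_apply, smul_comm]
  have h2 : finrank Ω V = 1 := finrank_eq_one e he fun x => by
    obtain ⟨d, hd⟩ := hV x
    exact ⟨d, hd.symm⟩
  rw [h1, map_smul, LinearMap.trace_id, h2, Nat.cast_one, smul_eq_mul, mul_one]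

variable [IsAlgClosed Ω]

lemma trace_pow (G f : Module.End Ω V) (h : Commute G f) :
    ∃ s : Finset Ω, (∀ μ, μ ∈ s ↔ G.maxGenEigenspace μ ≠ ⊥) ∧
      ∀ k : ℕ, LinearMap.trace Ω V (f ∘ₗ (G ^ k)) =
        ∑ μ ∈ s, LinearMap.trace Ω _ (f.restrict (G.mapsTo_maxGenEigenspace_of_comm h μ)) *
          μ ^ k := by
  classical
  have hfin : {μ | G.maxGenEigenspace μ ≠ ⊥}.Finite :=
    WellFoundedGT.finite_ne_bot_of_iSupIndep G.independent_maxGenEigenspace
  have hds := DirectSum.isInternal_submodule_of_iSupIndep_of_iSup_eq_top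
    G.independent_maxGenEigenspace (Module.End.iSup_maxGenEigenspace_eq_top G)
  refine ⟨hfin.toFinset, fun μ => by rw [Set.Finite.mem_toFinset]; rfl, fun k => ?_⟩
  have hG : ∀ μ, Set.MapsTo G (G.maxGenEigenspace μ) (G.maxGenEigenspace μ) :=
    fun μ => G.mapsTo_maxGenEigenspace_of_comm rfl μ
  have hGk : ∀ k : ℕ, ∀ μ, Set.MapsTo (G ^ k : Module.End Ω V) (G.maxGenEigenspace μ)
      (G.maxGenEigenspace μ) :=
    fun k μ => G.mapsTo_maxGenEigenspace_of_comm ((Commute.refl G).pow_right k) μ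
  have hfk : ∀ k : ℕ, ∀ μ, Set.MapsTo (f ∘ₗ (G ^ k)) (G.maxGenEigenspace μ)
      (G.maxGenEigenspace μ) :=
    fun k μ => (G.mapsTo_maxGenEigenspace_of_comm h μ).comp (hGk k μ)
  rw [LinearMap.trace_eq_sum_trace_restrict' hds hfin (hfk k)]
  refine Finset.sum_congr rfl fun μ _ => ?_
  -- on one eigenspace
  have key : ∀ k : ℕ, LinearMap.trace Ω _ ((f ∘ₗ (G ^ k)).restrict (hfk k μ)) =
      LinearMap.trace Ω _ (f.restrict (G.mapsTo_maxGenEigenspace_of_comm h μ)) * μ ^ k := by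
    intro k
    induction k with
    | zero =>
      have h1 : (f ∘ₗ (G ^ 0)).restrict (hfk 0 μ) =
          f.restrict (G.mapsTo_maxGenEigenspace_of_comm h μ) := by
        ext x
        rfl
      rw [h1, pow_zero μ, mul_one]
    | succ k ih =>
      have h1 : (f ∘ₗ (G ^ (k + 1))).restrict (hfk (k + 1) μ) =
          ((f ∘ₗ (G ^ k)).restrict (hfk k μ)) ∘ₗ (G.restrict (hG μ)) := by
        ext x
        show f ((G ^ (k + 1)) (x : V)) = f ((G ^ k) (G x))
        rw [pow_succ, Module.End.mul_apply]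
      have hc : Commute ((f ∘ₗ (G ^ k)).restrict (hfk k μ)) (G.restrict (hG μ)) := by
        have h2 : Commute (f * G ^ k) G := (h.symm).mul_left ((Commute.refl G).pow_left k)
        exact LinearMap.restrict_commute h2 _ _
      rw [h1, LinearMap.trace_comp_eq_mul_of_commute_of_isNilpotent μ hc
        (G.isNilpotent_restrict_maxGenEigenspace_sub_algebraMap μ), ih]
      ring
  exact key k

section frob

open Pool.Agent.Y143

variable [CharZero Ω]

lemma norm_weil {q w : ℕ} {μ : Ω} (hμ : IsWeilNumber q w μ)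
    (f : algebraicClosure ℚ Ω →+* ℂ) (h : μ ∈ algebraicClosure ℚ Ω) :
    f ⟨μ, h⟩ * conj (f ⟨μ, h⟩) = (q : ℂ) ^ w := by
  have h1 : aeval (f ⟨μ, h⟩) (minpoly ℚ μ) = 0 := by
    have h2 : aeval (⟨μ, h⟩ : algebraicClosure ℚ Ω) (minpoly ℚ μ) = 0 := by
      apply (algebraMap (algebraicClosure ℚ Ω) Ω).injective
      rw [map_zero, ← aeval_algebraMap_apply]
      exact minpoly.aeval ℚ μ
    have h3 : f ⟨μ, h⟩ = f.toRatAlgHom ⟨μ, h⟩ := rfl
    rw [h3, aeval_algHom_apply, h2, map_zero]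
  have h2 := hμ.2 _ h1
  rw [Complex.mul_conj, Complex.normSq_eq_norm_sq, h2]
  have h3 : ((q : ℝ) ^ (((w : ℤ) : ℝ) / 2)) ^ 2 = (q : ℝ) ^ w := by
    rw [← Real.rpow_natCast, ← Real.rpow_mul (Nat.cast_nonneg q), ← Real.rpow_natCast]
    congr 1
    push_cast
    ring
  rw [h3]
  push_cast
  rfl

/-- The scalars of an operator with rational traces on dual eigenlines are algebraic and complex
conjugates. -/
lemma conj_scalars {q w : ℕ} (hq : q ≠ 0) (G f : Module.End Ω V) (h : Commute G f)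
    (B : V →ₗ[Ω] V →ₗ[Ω] Ω) (hB : ∀ x y, B (G x) (G y) = (q : Ω) ^ w * B x y)
    (hnd : ∀ x, (∀ y, B x y = 0) → x = 0)
    (hweil : ∀ (μ : Ω) (x : V), x ≠ 0 → G x = μ • x → IsWeilNumber q w μ)
    (hrat : ∀ k : ℕ, ∃ r : ℚ, LinearMap.trace Ω V (f ∘ₗ (G ^ k)) = r)
    {α β : Ω} (hαβ : α * β = (q : Ω) ^ w) {e e' : V} (he : e ∈ G.maxGenEigenspace α)
    (he0 : e ≠ 0) (hα : ∀ x ∈ G.maxGenEigenspace α, ∃ c : Ω, x = c • e)
    (he' : e' ∈ G.maxGenEigenspace β)
    (he0' : e' ≠ 0) (hβ : ∀ x ∈ G.maxGenEigenspace β, ∃ c : Ω, x = c • e')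
    {c c' : Ω} (hc : f e = c • e) (hc' : f e' = c' • e')
    (j : algebraicClosure ℚ Ω →+* ℂ) :
    ∃ a b : algebraicClosure ℚ Ω, (a : Ω) = c ∧ (b : Ω) = c' ∧ j b = conj (j a) := by
  obtain ⟨s, hs, htr⟩ := trace_pow G f h
  have hqΩ : (q : Ω) ^ w ≠ 0 := pow_ne_zero _ (Nat.cast_ne_zero.2 hq)
  have hα0 : α ≠ 0 := left_ne_zero_of_mul (hαβ ▸ hqΩ)
  -- eigenvectors
  have hw : ∀ μ ∈ s, IsWeilNumber q w μ := by
    intro μ hμ
    obtain ⟨x, hx, hx0⟩ := (Submodule.ne_bot_iff _).1 ((hs μ).1 hμ)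
    obtain ⟨k, hk⟩ := Module.End.mem_maxGenEigenspace _ _ _ |>.1 hx
    obtain ⟨y, hy0, hy⟩ := exists_eig G k x hx0 hk
    exact hweil μ y hy0 hy
  have hmem : ∀ μ ∈ s, μ ∈ algebraicClosure ℚ Ω := fun μ hμ =>
    mem_algebraicClosure_iff.2 (hw μ hμ).1
  have hne : ∀ μ ∈ s, μ ≠ 0 := by
    rintro μ hμ rfl
    have h1 := norm_weil (hw 0 hμ) j (hmem 0 hμ)
    have h2 : (⟨0, hmem 0 hμ⟩ : algebraicClosure ℚ Ω) = 0 := rfl
    rw [h2, map_zero, zero_mul] at h1
    exact pow_ne_zero w (Nat.cast_ne_zero.2 hq : (q : ℂ) ≠ 0) h1.symm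
  have hinv : ∀ μ ∈ s, (q : Ω) ^ w / μ ∈ s := by
    intro μ hμ
    rw [hs]
    intro hbot
    obtain ⟨x, hx, hx0⟩ := (Submodule.ne_bot_iff _).1 ((hs μ).1 hμ)
    apply hx0
    apply hnd
    intro y
    have hy : y ∈ LinearMap.ker (B x) := by
      have h1 : (⊤ : Submodule Ω V) ≤ LinearMap.ker (B x) := by
        rw [← Module.End.iSup_maxGenEigenspace_eq_top G]
        apply iSup_le
        intro ν z hz
        by_cases hν : μ * ν = (q : Ω) ^ w
        · have h2 : ν = (q : Ω) ^ w / μ := by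
            rw [eq_div_iff (hne μ hμ), mul_comm, hν]
          rw [h2, hbot] at hz
          rw [show z = 0 from hz]
          exact Submodule.zero_mem _
        · exact orth_gen G B hB hν hx hz
      exact h1 Submodule.mem_top
    exact hy
  have hαs : α ∈ s := by
    rw [hs]
    exact (Submodule.ne_bot_iff _).2 ⟨e, he, he0⟩
  have hβ' : β = (q : Ω) ^ w / α := by
    rw [eq_div_iff hα0, mul_comm, hαβ]
  have hβs : β ∈ s := by
    rw [hβ']
    exact hinv α hαs
  obtain ⟨a, b, h1, h2, h3⟩ := conj_of_moments (algebraicClosure ℚ Ω) s hmem j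
    (fun μ => LinearMap.trace Ω _ (f.restrict (G.mapsTo_maxGenEigenspace_of_comm h μ)))
    (fun k => by
      obtain ⟨r, hr⟩ := hrat k
      exact ⟨r, by rw [← hr, htr]⟩) (fun μ => (q : Ω) ^ w / μ) hinv
    (fun μ hμ => by
      have := hne μ hμ
      field_simp) (fun μ hμ => by
      have h1 := norm_weil (hw μ hμ) j (hmem μ hμ)
      have h2 : (⟨(q : Ω) ^ w / μ, hmem _ (hinv μ hμ)⟩ : algebraicClosure ℚ Ω) *
          ⟨μ, hmem μ hμ⟩ = (q : algebraicClosure ℚ Ω) ^ w := by
        apply (algebraMap (algebraicClosure ℚ Ω) Ω).injective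
        rw [map_mul, map_pow, map_natCast]
        exact div_mul_cancel₀ _ (hne μ hμ)
      have h3 := congrArg j h2
      rw [map_mul, map_pow, map_natCast, ← h1, mul_comm] at h3
      have h4 : j ⟨μ, hmem μ hμ⟩ ≠ 0 := by
        intro h0
        rw [h0, zero_mul] at h1
        exact pow_ne_zero w (Nat.cast_ne_zero.2 hq : (q : ℂ) ≠ 0) h1.symm
      exact mul_left_cancel₀ h4 h3) α hαs
  refine ⟨a, b, ?_, ?_, h3⟩
  · rw [h1]
    apply trace_line (e := (⟨e, he⟩ : G.maxGenEigenspace α))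
      (fun h0 => he0 (congrArg Subtype.val h0))
    · rintro ⟨x, hx⟩
      obtain ⟨d, hd⟩ := hα x hx
      exact ⟨d, Subtype.ext hd⟩
    · exact Subtype.ext hc
  · rw [h2, ← hβ']
    apply trace_line (e := (⟨e', he'⟩ : G.maxGenEigenspace β))
      (fun h0 => he0' (congrArg Subtype.val h0))
    · rintro ⟨x, hx⟩
      obtain ⟨d, hd⟩ := hβ x hx
      exact ⟨d, Subtype.ext hd⟩
    · exact Subtype.ext hc'

end frob

end Run7.h615.WS
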