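import Pool.Agent.Run7.h615.WS.Geo
import Pool.Agent.Run7.h615.WL.Cor
import Pool.Agent.Run7.h615.WL.Log

/-!
# The theorems for degenerations and for SNCL schemes
-/

set_option autoImplicit false

namespace Run7.h615.WS

universe u v

open Module Pool.Agent.Y143 Pool.Agent.Helper60K9.KL Run7.h615.WM Run7.h615.WL

variable {Ω : Type u} [Field Ω] [CharZero Ω] [IsAlgClosed Ω] {Γ : Type} {n q : ℕ}

lemma lowAt_of_fibred {X : SpecialFibre.{u, v} Ω Γ n q} (A : DivisorClasses X) (a w : ℕ)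
    (hw : a + 1 + w ≤ n) (h : FibredAt A a w) : LowAt A a w := by
  rcases h with ⟨rfl, h⟩ | ⟨h3, h⟩
  · refine Or.inl ⟨rfl, allGenerated_of_bases hw ?_ ?_ h⟩
    · rw [Submodule.span_le]
      intro x hx
      exact A.A1_le a x hx
    · intro s hs
      have hle : Submodule.span Ω (A.A1 a : Set (X.H a)) ≤
          (Submodule.span Ω (A.A1 (a + 1) : Set (X.H (a + 1)))).comap (X.res a) :=
        Submodule.span_le.2 fun x hx => Submodule.subset_span (A.res_A1 a x hx)
      exact hle hs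
  · refine Or.inr ⟨h3, allGenerated_of_bases hw ?_ ?_ h⟩
    · rintro _ ⟨z, hz, rfl⟩
      have := X.lef_gr a _ _ hz
      rwa [show (w : ℤ) - 2 + 2 = w by ring] at this
    · rintro _ ⟨z, hz, rfl⟩
      exact ⟨X.res a z, X.res_gr a _ _ hz, (X.res_lef a z).symm⟩

lemma generatedAt_of_all {X : SpecialFibre.{u, v} Ω Γ n q} {a w : ℕ} {S : Submodule Ω (X.H a)}
    (h : AllGenerated X a w S) (χ : Γ → Ω) : GeneratedAt X a w χ S := by
  obtain ⟨T, h1, h2, h3, h4⟩ := h
  exact ⟨T, h1, inf_le_left.trans h2, h3, h4⟩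

/-- mw purity from the low degrees of the strata. -/
theorem mw_of_low (X : Degeneration.{u, v} Ω Γ n q) (A : DivisorClasses X.toSpecialFibre)
    (k : ℕ) (h : ∀ a w : ℕ, 2 ≤ w → a + 1 + w ≤ k → a + 1 + w + k ≤ 2 * n → LowAt A a w) :
    IsMWPure q k (X.actV k X.frob) (X.N k) := by
  let C : CycleClasses X.toSpecialFibre :=
    { Z := fun _ _ => ⊥
      group := fun a c => ⟨fun x hx => by
          rw [AddSubgroup.mem_bot] at hx
          rw [hx]
          exact Submodule.zero_mem _, fun _ x hx y _ => ⟨0, by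
          rw [AddSubgroup.mem_bot] at hx
          show X.pair a x _ = _
          rw [hx, map_zero, LinearMap.zero_apply, Int.cast_zero]⟩⟩
      preserves := fun a =>
        { res := fun c x hx => by
            rw [AddSubgroup.mem_bot] at hx ⊢
            rw [hx, map_zero]
          gys := fun c x hx => by
            rw [AddSubgroup.mem_bot] at hx ⊢
            rw [hx, map_zero]
          lef := fun c x hx => by
            rw [AddSubgroup.mem_bot] at hx ⊢
            rw [hx, map_zero] } }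
  apply mw_of_harmless X A C k
  intro a w χ hw h1 h4
  rcases h a w hw h1 h4 with ⟨rfl, h5⟩ | ⟨h3, h5⟩
  · exact Or.inr (Or.inr (Or.inl ⟨rfl, generatedAt_of_all h5 χ⟩))
  · exact Or.inr (Or.inr (Or.inr (Or.inl ⟨h3, generatedAt_of_all h5 χ⟩)))

theorem mw_of_fibred (X : Degeneration.{u, v} Ω Γ n q) (A : DivisorClasses X.toSpecialFibre)
    (k : ℕ) (h : ∀ a w : ℕ, 2 ≤ w → a + 1 + w ≤ k → a + 1 + w + k ≤ 2 * n → FibredAt A a w) :
    IsMWPure q k (X.actV k X.frob) (X.N k) :=
  mw_of_low X A k fun a w h1 h2 h3 => lowAt_of_fibred A a w (by omega) (h a w h1 h2 h3)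

/-- Fibred strata or harmless characters. -/
theorem mw_of_fibred_or (X : Degeneration.{u, v} Ω Γ n q) (A : DivisorClasses X.toSpecialFibre)
    (C : CycleClasses X.toSpecialFibre) (k : ℕ)
    (h : ∀ a w : ℕ, 2 ≤ w → a + 1 + w ≤ k → a + 1 + w + k ≤ 2 * n →
      FibredAt A a w ∨ ∀ χ : Γ → Ω, HarmlessAt A C a w χ) :
    IsMWPure q k (X.actV k X.frob) (X.N k) := by
  apply mw_of_harmless X A C k
  intro a w χ hw h1 h4
  rcases h a w hw h1 h4 with h5 | h5
  · rcases lowAt_of_fibred A a w (by omega) h5 with ⟨rfl, h6⟩ | ⟨h3, h6⟩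
    · exact Or.inr (Or.inr (Or.inl ⟨rfl, generatedAt_of_all h6 χ⟩))
    · exact Or.inr (Or.inr (Or.inr (Or.inl ⟨h3, generatedAt_of_all h6 χ⟩)))
  · exact h5 χ

/-- Without the hard Lefschetz theorem for the generic fibre. -/
theorem low_of_fibred (X : SemistableModel.{u, v} Ω Γ n q) (A : DivisorClasses X.toSpecialFibre)
    (m : ℕ) (h : ∀ a w : ℕ, 2 ≤ w → a + 1 + w ≤ m → a + 1 + w + m ≤ 2 * n → FibredAt A a w) :
    (m ≤ n → ∀ e, GrInj X m e) ∧ (n ≤ m → ∀ e, GrSurj X m e) ∧
      (KatoAt X m ↔ IsSymmetric X m) ∧ (m = n → KatoAt X m) :=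
  low_degrees X A m fun a w h1 h2 h3 => lowAt_of_fibred A a w (by omega) (h a w h1 h2 h3)

end Run7.h615.WS
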