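import Pool.Agent.Run7.h615.WS.Defs
import Pool.Agent.Run7.h615.WS.Trc

/-!
# Nondegeneracy of the form for simple spectrum
-/

set_option autoImplicit false
set_option linter.unusedSectionVars false

namespace Run7.h615.WS

universe u v

open Module Pool.Agent.Y143
open scoped ComplexConjugate

variable {Ω : Type u} [Field Ω] [CharZero Ω] {H : Type v} [AddCommGroup H] [Module Ω H]
  {H' : Type v} [AddCommGroup H'] [Module Ω H'] {I J : Type} [Fintype I] [Fintype J]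

/-- The hypotheses of the core theorem. -/
structure IsSystem (q w : ℕ) (F : Module.End Ω H) (F' : Module.End Ω H') (T : I → Submodule Ω H)
    (B : I → H →ₗ[Ω] H →ₗ[Ω] Ω) (B' : H' →ₗ[Ω] H' →ₗ[Ω] Ω) (ρ : I → J → H →ₗ[Ω] H')
    (τ : I → J → H' →ₗ[Ω] H) (d : I → J → ℕ) : Prop where
  q_ne : q ≠ 0
  base : ∀ i, IsBaseForm q w F (T i) (B i)
  sim : ∀ i j, IsSimilitude (T i) (B i) B' (ρ i j) (τ i j) (d i j)
  comm : ∀ i j x, ρ i j (F x) = F' (ρ i j x)
  frob' : ∀ x y, B' (F' x) (F' y) = (q : Ω) ^ w * B' x y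
  symm' : ∀ i i' j, ∀ x ∈ T i, ∀ y ∈ T i',
    B' (ρ i' j y) (ρ i j x) = (-1) ^ w * B' (ρ i j x) (ρ i' j y)
  weil : ∀ i (μ : Ω) x, x ∈ T i → x ≠ 0 → F x = μ • x → IsWeilNumber q w μ
  rat : ∀ i f, IsWalk ρ τ i i f → HasRationalTraces F f

namespace IsSystem

variable {q w : ℕ} {F : Module.End Ω H} {F' : Module.End Ω H'} {T : I → Submodule Ω H}
  {B : I → H →ₗ[Ω] H →ₗ[Ω] Ω} {B' : H' →ₗ[Ω] H' →ₗ[Ω] Ω} {ρ : I → J → H →ₗ[Ω] H'}
  {τ : I → J → H' →ₗ[Ω] H} {d : I → J → ℕ} (S : IsSystem q w F F' T B B' ρ τ d)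
include S

lemma sgn_sq (x : Ω) : (-1) ^ w * ((-1) ^ w * x) = x := by
  rw [← mul_assoc, ← mul_pow, neg_one_mul, neg_neg, one_pow, one_mul]

lemma symm (i : I) {x y : H} (hx : x ∈ T i) (hy : y ∈ T i) : B i y x = (-1) ^ w * B i x y :=
  (S.base i).symm x hx y hy

lemma nondeg (i : I) {x : H} (hx : x ∈ T i) (h : ∀ y ∈ T i, B i x y = 0) : x = 0 :=
  (S.base i).nondeg x hx h

lemma kappa_ne : (q : Ω) ^ w ≠ 0 := pow_ne_zero _ (Nat.cast_ne_zero.2 S.q_ne)

/-- The Frobenius of `T i`. -/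
noncomputable def _root_.Run7.h615.WS.frobOn (S : IsSystem q w F F' T B B' ρ τ d) (i : I) :
    Module.End Ω (T i) := F.restrict (S.base i).stable

/-- The form on `T i`. -/
noncomputable def _root_.Run7.h615.WS.formOn (_S : IsSystem q w F F' T B B' ρ τ d) (i : I) :
    T i →ₗ[Ω] T i →ₗ[Ω] Ω := (B i).domRestrict₁₂ (T i) (T i)

lemma formOn_apply (i : I) (x y : T i) : formOn S i x y = B i x y := rfl

lemma formOn_frob (i : I) (x y : T i) :
    formOn S i (frobOn S i x) (frobOn S i y) = (q : Ω) ^ w * formOn S i x y :=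
  (S.base i).frob x x.2 y y.2

lemma formOn_nondeg (i : I) (x : T i) (h : ∀ y, formOn S i x y = 0) : x = 0 :=
  Subtype.ext (S.nondeg i x.2 fun y hy => h ⟨y, hy⟩)

lemma mem_gen_iff (i : I) (μ : Ω) (x : T i) :
    x ∈ (frobOn S i).maxGenEigenspace μ ↔ (x : H) ∈ F.maxGenEigenspace μ := by
  unfold frobOn Module.End.maxGenEigenspace
  rw [Module.End.genEigenspace_restrict]
  rfl

lemma orth (i : I) {μ ν : Ω} (h : μ * ν ≠ (q : Ω) ^ w) {x y : H} (hx : x ∈ T i)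
    (hy : y ∈ T i) (hxμ : x ∈ F.maxGenEigenspace μ) (hyν : y ∈ F.maxGenEigenspace ν) :
    B i x y = 0 :=
  orth_gen (frobOn S i) (formOn S i) (S.formOn_frob i) h (x := ⟨x, hx⟩) (y := ⟨y, hy⟩)
    ((S.mem_gen_iff i μ _).2 hxμ) ((S.mem_gen_iff i ν _).2 hyν)

lemma inj (i : I) (j : J) (hd : d i j ≠ 0) {x : H} (hx : x ∈ T i) (h : ρ i j x = 0) : x = 0 := by
  apply S.nondeg i hx
  intro y hy
  have h1 := (S.sim i j).form x hx y hy
  rw [h, ev, map_zero, LinearMap.zero_apply] at h1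
  rcases mul_eq_zero.1 h1.symm with h2 | h2
  · exact absurd (Nat.cast_eq_zero.1 h2) hd
  · exact h2

variable [FiniteDimensional Ω H]

lemma frob_surj (i : I) {y : H} (hy : y ∈ T i) : ∃ x ∈ T i, F x = y := by
  have hinj : Function.Injective (frobOn S i) := by
    rw [injective_iff_map_eq_zero]
    intro x hx
    apply S.formOn_nondeg i
    intro y
    have h1 := S.formOn_frob i x y
    rw [hx, map_zero, LinearMap.zero_apply] at h1
    rcases mul_eq_zero.1 h1.symm with h2 | h2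
    · exact absurd h2 S.kappa_ne
    · exact h2
  obtain ⟨x, hx⟩ := (LinearMap.injective_iff_surjective.1 hinj) ⟨y, hy⟩
  exact ⟨x, x.2, congrArg Subtype.val hx⟩

lemma tau_comm (i : I) (j : J) (z : H') : τ i j (F' z) = F (τ i j z) := by
  rw [← sub_eq_zero]
  have h1 : τ i j (F' z) ∈ T i := (S.sim i j).mem _
  have h2 : F (τ i j z) ∈ T i := (S.base i).stable _ ((S.sim i j).mem _)
  apply S.nondeg i (Submodule.sub_mem _ h1 h2)
  intro y' hy'
  obtain ⟨y, hy, rfl⟩ := S.frob_surj i hy'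
  have e1 := (S.sim i j).adj (F' z) (F y) hy'
  have e2 := (S.base i).frob _ ((S.sim i j).mem z) y hy
  have e3 := (S.sim i j).adj z y hy
  simp only [ev] at e1 e2 e3
  rw [map_sub, LinearMap.sub_apply, e1, e2, S.comm, S.frob', e3, sub_self]

lemma walk_mem {i i' : I} {f : Module.End Ω H} (h : IsWalk ρ τ i i' f) (x : H) : f x ∈ T i' := by
  cases h with
  | hop i j i' => exact (S.sim _ _).mem _
  | comp h1 h2 =>
    revert x
    suffices h : ∀ {i i' : I} {f : Module.End Ω H}, IsWalk ρ τ i i' f → ∀ x, f x ∈ T i' from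
      fun x => h h2 _
    intro i i' f h
    induction h with
    | hop i j i' => exact fun x => (S.sim _ _).mem _
    | comp _ _ _ ih => exact fun x => ih _

lemma walk_comm {i i' : I} {f : Module.End Ω H} (h : IsWalk ρ τ i i' f) (x : H) :
    f (F x) = F (f x) := by
  induction h generalizing x with
  | hop i j i' =>
    show τ _ _ (ρ _ _ (F x)) = F (τ _ _ (ρ _ _ x))
    rw [S.comm, S.tau_comm]
  | comp _ _ ih1 ih2 =>
    show _ = F _
    rw [LinearMap.comp_apply, ih1, ih2]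
    rfl

/-- The reversed walk is the adjoint. -/
def _root_.Run7.h615.WS.IsAdj (T : I → Submodule Ω H) (B : I → H →ₗ[Ω] H →ₗ[Ω] Ω) (i i' : I)
    (f g : Module.End Ω H) : Prop :=
  ∀ x ∈ T i, ∀ y ∈ T i', B i' (f x) y = B i x (g y)

lemma adj_symm {i i' : I} {f g : Module.End Ω H} (hf : ∀ x, f x ∈ T i') (hg : ∀ x, g x ∈ T i)
    (h : IsAdj T B i i' f g) : IsAdj T B i' i g f := by
  intro x hx y hy
  rw [S.symm i (hy) (hg x), ← h y hy x hx, ← S.symm i' (hf y) hx]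

lemma hop_adj (i : I) (j : J) (i' : I) :
    IsAdj T B i i' (τ i' j ∘ₗ ρ i j) (τ i j ∘ₗ ρ i' j) := by
  intro x hx y hy
  have e1 := (S.sim i' j).adj (ρ i j x) y hy
  have e2 := (S.sim i j).adj (ρ i' j y) x hx
  simp only [ev] at e1 e2
  show B i' (τ i' j (ρ i j x)) y = B i x (τ i j (ρ i' j y))
  rw [e1, S.symm i ((S.sim i j).mem _) hx, e2, S.symm' i i' j x hx y hy, S.sgn_sq]

/-- A reversible walk on the parts for the eigenvalue `α`. -/
def _root_.Run7.h615.WS.Good (F : Module.End Ω H) (T : I → Submodule Ω H)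
    (B : I → H →ₗ[Ω] H →ₗ[Ω] Ω) (ρ : I → J → H →ₗ[Ω] H') (τ : I → J → H' →ₗ[Ω] H) (α : Ω)
    (i i' : I) (f g : Module.End Ω H) (m : ℕ) : Prop :=
  IsWalk ρ τ i i' f ∧ IsWalk ρ τ i' i g ∧ IsAdj T B i i' f g ∧ 0 < m ∧
    (∀ x ∈ T i ⊓ F.maxGenEigenspace α, g (f x) = (m : Ω) • x) ∧
    ∀ y ∈ T i' ⊓ F.maxGenEigenspace α, f (g y) = (m : Ω) • y

lemma walk_part {i i' : I} {f : Module.End Ω H} (h : IsWalk ρ τ i i' f) {α : Ω} {x : H}
    (hx : x ∈ F.maxGenEigenspace α) : f x ∈ T i' ⊓ F.maxGenEigenspace α := by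
  refine ⟨S.walk_mem h x, ?_⟩
  have hc : Commute F f := by
    ext y
    exact (S.walk_comm h y).symm
  exact F.mapsTo_maxGenEigenspace_of_comm hc α hx

lemma good_symm {α : Ω} {i i' : I} {f g : Module.End Ω H} {m : ℕ}
    (h : Good F T B ρ τ α i i' f g m) : Good F T B ρ τ α i' i g f m :=
  ⟨h.2.1, h.1, S.adj_symm (S.walk_mem h.1) (S.walk_mem h.2.1) h.2.2.1, h.2.2.2.1,
    h.2.2.2.2.2, h.2.2.2.2.1⟩

lemma good_trans {α : Ω} {i i' i'' : I} {f g f' g' : Module.End Ω H} {m m' : ℕ}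
    (h : Good F T B ρ τ α i i' f g m) (h' : Good F T B ρ τ α i' i'' f' g' m') :
    Good F T B ρ τ α i i'' (f' ∘ₗ f) (g ∘ₗ g') (m' * m) := by
  obtain ⟨h1, h2, h3, h4, h5, h6⟩ := h
  obtain ⟨k1, k2, k3, k4, k5, k6⟩ := h'
  refine ⟨h1.comp k1, k2.comp h2, ?_, Nat.mul_pos k4 h4, ?_, ?_⟩
  · intro x hx y hy
    show B i'' (f' (f x)) y = B i x (g (g' y))
    rw [k3 _ (S.walk_mem h1 x) y hy, h3 x hx _ (S.walk_mem k2 y)]
  · intro x hx
    show g (g' (f' (f x))) = _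
    rw [k5 _ (S.walk_part h1 hx.2), map_smul, h5 x hx, smul_smul]
    push_cast
    rfl
  · intro y hy
    show f' (f (g (g' y))) = _
    rw [h6 _ (S.walk_part k2 hy.2), map_smul, k6 y hy, smul_smul, mul_comm]
    push_cast
    rfl

end IsSystem

end Run7.h615.WS
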