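import Pool.Agent.Run7.h615.WL.LogDefs
import Pool.Agent.Run7.h615.WM.Split

/-!
# Cohomology classes which come from the bases of fibrations
-/


namespace Run7.h615.WS

universe u v

open Module Pool.Agent.Y143 Pool.Agent.Helper60K9.KL Run7.h615.WM

section

variable {Ω : Type u} [Field Ω] {H : Type v} [AddCommGroup H] [Module Ω H] {H' : Type v}
  [AddCommGroup H'] [Module Ω H']

/-- The space `T` of classes of degree `w` is stable under the Frobenius `F`, and the form `B` is
nondegenerate on `T`, symmetric or alternating, and multiplied by `q ^ w` by the Frobenius. -/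
structure IsBaseForm (q w : ℕ) (F : Module.End Ω H) (T : Submodule Ω H)
    (B : H →ₗ[Ω] H →ₗ[Ω] Ω) : Prop where
  stable : ∀ x ∈ T, F x ∈ T
  symm : ∀ x ∈ T, ∀ y ∈ T, ev B y x = (-1) ^ w * ev B x y
  nondeg : ∀ x ∈ T, (∀ y ∈ T, ev B x y = 0) → x = 0
  frob : ∀ x ∈ T, ∀ y ∈ T, ev B (F x) (F y) = (q : Ω) ^ w * ev B x y

/-- On the space `T`, the pull-back by `ρ` of the form `B'` is `d` times the form `B`, and `ρ` is zero
on `T` if `d = 0`. The map `τ` to `T` is the transpose of `ρ`. -/
structure IsSimilitude (T : Submodule Ω H) (B : H →ₗ[Ω] H →ₗ[Ω] Ω)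
    (B' : H' →ₗ[Ω] H' →ₗ[Ω] Ω) (ρ : H →ₗ[Ω] H') (τ : H' →ₗ[Ω] H) (d : ℕ) : Prop where
  form : ∀ x ∈ T, ∀ y ∈ T, ev B' (ρ x) (ρ y) = d * ev B x y
  zero : d = 0 → ∀ x ∈ T, ρ x = 0
  mem : ∀ z, τ z ∈ T
  adj : ∀ z, ∀ y ∈ T, ev B (τ z) y = ev B' z (ρ y)

/-- The composites of the maps `τ i' j ∘ ρ i j`: from the component `i` to a component `j` of the
intersections, to another component `i'`, and so on. -/
inductive IsWalk {I J : Type} (ρ : I → J → H →ₗ[Ω] H') (τ : I → J → H' →ₗ[Ω] H) :
    I → I → Module.End Ω H → Prop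
  | hop (i : I) (j : J) (i' : I) : IsWalk ρ τ i i' (τ i' j ∘ₗ ρ i j)
  | comp {i i' i'' : I} {f g : Module.End Ω H} :
      IsWalk ρ τ i i' f → IsWalk ρ τ i' i'' g → IsWalk ρ τ i i'' (g ∘ₗ f)

/-- The traces of the `f F ^ k` are rational numbers. -/
def HasRationalTraces (F f : Module.End Ω H) : Prop :=
  ∀ k : ℕ, ∃ r : ℚ, LinearMap.trace Ω H (f ∘ₗ (F ^ k)) = r

end

/-- Let `H` and `H'` be the cohomology of the disjoint union of smooth projective varieties `Y_i`
(`i : I`) and `D_j` (`j : J`); `comp i` and `dbl j` are the projections to the cohomology of `Y_i` and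
`D_j`. The space `T i` of classes on `Y_i` comes from a variety `S_i`, the base of a fibration of `Y_i`;
`form i` is given by the intersection form of `S_i`, `deg i j` is the degree of `D_j` over `S_i`, and
`push i j` is given by the push-forward from `D_j` to `S_i`. -/
structure Bases (Ω : Type u) [Field Ω] (H H' : Type v) [AddCommGroup H] [Module Ω H]
    [AddCommGroup H'] [Module Ω H'] (I J : Type) where
  comp : I → Module.End Ω H
  dbl : J → Module.End Ω H'
  T : I → Submodule Ω H
  form : I → H →ₗ[Ω] H →ₗ[Ω] Ω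
  deg : I → J → ℕ
  push : I → J → H' →ₗ[Ω] H

namespace Bases

variable {Ω : Type u} [Field Ω] {H H' : Type v} [AddCommGroup H] [Module Ω H]
  [AddCommGroup H'] [Module Ω H'] {I J : Type} (R : Bases Ω H H' I J)

/-- The restriction of the classes on `Y_i` to `D_j`. -/
def resTo (ρ : H →ₗ[Ω] H') (i : I) (j : J) : H →ₗ[Ω] H' := restr (R.comp i) ρ (R.dbl j)

/-- The properties of the spaces `T i`; `F` is the Frobenius, `ρ` the restriction, `G` the space of
the classes of degree `w` on the `Y_i`, and `B'` a form on the classes of degree `w` on the `D_j`.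

* The restriction of `T i` to `D_j` is a similitude, as in `IsSimilitude`, and it is orthogonal to
  the classes in `S'`.
* The cohomology groups of different `D_j` are orthogonal.
* `G` is generated by `S`, the `T i` and classes with restriction zero.
* The composites of the restrictions from `T i` to `D_j` and the push-forwards to `T i'`, and powers
  of the Frobenius, have rational traces (they are given by algebraic correspondences). -/
structure IsValid (q w : ℕ) (F : Module.End Ω H) (ρ : H →ₗ[Ω] H') (B' : H' →ₗ[Ω] H' →ₗ[Ω] Ω)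
    (G S : Submodule Ω H) (S' : Submodule Ω H') : Prop where
  le : ∀ i, R.T i ≤ G ⊓ LinearMap.range (R.comp i)
  base : ∀ i, IsBaseForm q w F (R.T i) (R.form i)
  sim : ∀ i j, IsSimilitude (R.T i) (R.form i) B' (R.resTo ρ i j) (R.push i j) (R.deg i j)
  orth : ∀ i j, ∀ x ∈ R.T i, ∀ s ∈ S', ev B' (R.resTo ρ i j x) s = 0
  dbl : ∀ j x y, ev B' (R.dbl j x) y = ev B' x (R.dbl j y)
  span : G ≤ S ⊔ LinearMap.ker ρ ⊔ ⨆ i, R.T i
  rational : ∀ i f, IsWalk (R.resTo ρ) R.push i i f → HasRationalTraces F f

/-- `D_j` is mapped onto `S_i`, and `α` is an eigenvalue of the Frobenius on `T i`. -/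
def Active (F : Module.End Ω H) (α : Ω) (i : I) (j : J) : Prop :=
  R.deg i j ≠ 0 ∧ R.T i ⊓ F.maxGenEigenspace α ≠ ⊥

/-- The Frobenius `F'` has simple spectrum on the part of the cohomology of the links orthogonal to
`S'`: for each `α`, and each `D_j` for which at least two of the `Y_i` are active, the generalized
eigenspace for `α` in the classes on `D_j` which are in `G'` and orthogonal to `S'` has dimension at
most one. -/
def HasSimpleLinks (F : Module.End Ω H) (F' : Module.End Ω H') (B' : H' →ₗ[Ω] H' →ₗ[Ω] Ω)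
    (G' S' : Submodule Ω H') : Prop :=
  ∀ α j, (∃ i i', i ≠ i' ∧ R.Active F α i j ∧ R.Active F α i' j) →
    finrank Ω (perpIn B' (G' ⊓ F'.maxGenEigenspace α ⊓ LinearMap.range (R.dbl j)) S') ≤ 1

end Bases

section

variable {Ω : Type u} [Field Ω] {H H' : Type v} [AddCommGroup H] [Module Ω H] [AddCommGroup H']
  [Module Ω H']

/-- The classes of degree `w` in `H` come from the classes in `S` and from bases of fibrations, up to
classes with restriction zero, and the Frobenius `F'` has simple spectrum on the part of the classes of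
degree `w` of the links orthogonal to `S'`. Here `gr`, `B`, `F` and `gr'`, `B'`, `F'` are the graded
pieces, the Poincare pairing and the Frobenius for the cohomology `H` of the disjoint union of the
`Y_i` and for the cohomology `H'` of the disjoint union of the `D_j`, `ρ` is the restriction and `Q` is
the form on the classes of degree `w` in `H'`. -/
def AreFromBases (q w : ℕ) (gr : ℤ → Submodule Ω H) (gr' : ℤ → Submodule Ω H')
    (B : H →ₗ[Ω] H →ₗ[Ω] Ω) (B' Q : H' →ₗ[Ω] H' →ₗ[Ω] Ω) (F : Module.End Ω H)
    (F' : Module.End Ω H') (ρ : H →ₗ[Ω] H') (S : Submodule Ω H) (S' : Submodule Ω H') : Prop :=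
  ∃ (I J : Type) (_ : Fintype I) (_ : Fintype J) (R : Bases Ω H H' I J),
    IsSplitting gr B F R.comp ∧ IsSplitting gr' B' F' R.dbl ∧
    R.IsValid q w F ρ Q (gr w) S S' ∧ R.HasSimpleLinks F F' Q (gr' w) S'

end

variable {Ω : Type u} [Field Ω] [CharZero Ω] {Γ : Type} {n q : ℕ}

/-- The classes in `H^w(Y^(a+1))` come from the classes in `S` and from bases `S_i` of fibrations of the
components `Y_i` of `Y^(a+1)`, up to classes with restriction zero to `Y^(a+2)`, and the Frobenius has
simple spectrum on the part of `H^w` of the links orthogonal to `S'`. -/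
def FromBases (X : SpecialFibre.{u, v} Ω Γ n q) (a w : ℕ) (S : Submodule Ω (X.H a))
    (S' : Submodule Ω (X.H (a + 1))) : Prop :=
  AreFromBases q w (X.gr a) (X.gr (a + 1)) (X.pair a) (X.pair (a + 1))
    (formL X (a + 1) (n - a - 1 - w)) (X.act a X.frob) (X.act (a + 1) X.frob) (X.res a) S S'

/-- The classes in `H^w(Y^(a+1))` come from bases, as in `FromBases`, and from classes of divisors, if
`w = 2`, or multiples of the class `L` of an ample divisor, if `w ≥ 3`. -/
def FibredAt {X : SpecialFibre.{u, v} Ω Γ n q} (A : DivisorClasses X) (a w : ℕ) : Prop :=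
  (w = 2 ∧ FromBases X a w (Submodule.span Ω (A.A1 a : Set (X.H a)))
      (Submodule.span Ω (A.A1 (a + 1) : Set (X.H (a + 1))))) ∨
    (3 ≤ w ∧ FromBases X a w ((X.gr a ((w : ℤ) - 2)).map (X.lef a))
      ((X.gr (a + 1) ((w : ℤ) - 2)).map (X.lef (a + 1))))

end Run7.h615.WS
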