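import Pool.Agent.Run7.h615.WS.Link

/-!
# The form on the image of the restriction is nondegenerate
-/

set_option autoImplicit false
set_option linter.unusedSectionVars false

namespace Run7.h615.WS

universe u v

open Module Pool.Agent.Y143
open scoped ComplexConjugate

variable {Ω : Type u} [Field Ω] [CharZero Ω] {H : Type v} [AddCommGroup H] [Module Ω H]
  {H' : Type v} [AddCommGroup H'] [Module Ω H'] {I J : Type} [Fintype I] [Fintype J]

/-- Dual generators of the lines for `α` and `β`. -/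
structure IsFrame (F : Module.End Ω H) (T : I → Submodule Ω H) (B : I → H →ₗ[Ω] H →ₗ[Ω] Ω)
    (α β : Ω) (r : I) (e e' : H) : Prop where
  mem : e ∈ T r ⊓ F.maxGenEigenspace α
  mem' : e' ∈ T r ⊓ F.maxGenEigenspace β
  pair : B r e e' = 1
  line : ∀ x ∈ T r ⊓ F.maxGenEigenspace α, ∃ c : Ω, x = c • e
  line' : ∀ x ∈ T r ⊓ F.maxGenEigenspace β, ∃ c : Ω, x = c • e'

namespace IsSystem

variable {q w : ℕ} {F : Module.End Ω H} {F' : Module.End Ω H'} {T : I → Submodule Ω H}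
  {B : I → H →ₗ[Ω] H →ₗ[Ω] Ω} {B' : H' →ₗ[Ω] H' →ₗ[Ω] Ω} {ρ : I → J → H →ₗ[Ω] H'}
  {τ : I → J → H' →ₗ[Ω] H} {d : I → J → ℕ} (S : IsSystem q w F F' T B B' ρ τ d)
  [FiniteDimensional Ω H] [IsAlgClosed Ω]
include S

lemma perf (i : I) {μ ν : Ω} (h : μ * ν = (q : Ω) ^ w) {x : H}
    (hx : x ∈ T i ⊓ F.maxGenEigenspace μ) (hx0 : x ≠ 0) :
    ∃ y ∈ T i ⊓ F.maxGenEigenspace ν, B i x y ≠ 0 := by
  by_contra hcon
  push Not at hcon
  apply hx0
  apply S.nondeg i hx.1
  intro y hy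
  have h1 : T i ≤ LinearMap.ker (B i x) := by
    rw [Submodule.eq_iSup_inf_genEigenspace (p := T i) (f := F) ⊤ (S.base i).stable
      (Module.End.iSup_maxGenEigenspace_eq_top _)]
    apply iSup_le
    intro ν' z hz
    by_cases hν : μ * ν' = (q : Ω) ^ w
    · have hμ0 : μ ≠ 0 := by
        rintro rfl
        rw [zero_mul] at h
        exact S.kappa_ne h.symm
      have : ν' = ν := mul_left_cancel₀ hμ0 (hν.trans h.symm)
      rw [this] at hz
      exact hcon z hz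
    · exact S.orth i hν hx.1 hz.1 hx.2 hz.2
  exact h1 hy

lemma exists_frame {α β : Ω} (h : α * β = (q : Ω) ^ w) {i : I} {e : H}
    (he : e ∈ T i ⊓ F.maxGenEigenspace α) (he0 : e ≠ 0)
    (hline : ∀ x ∈ T i ⊓ F.maxGenEigenspace α, ∃ c : Ω, x = c • e) :
    ∃ e', IsFrame F T B α β i e e' := by
  obtain ⟨y, hy, hy0⟩ := S.perf i h he he0
  have hp : B i e ((B i e y)⁻¹ • y) = 1 := by
    rw [map_smul, smul_eq_mul, inv_mul_cancel₀ hy0]
  refine ⟨(B i e y)⁻¹ • y, he, Submodule.smul_mem _ _ hy, hp, hline, fun x hx => ?_⟩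
  refine ⟨B i e x, ?_⟩
  set e' := (B i e y)⁻¹ • y with he'
  have hmem : e' ∈ T i ⊓ F.maxGenEigenspace β := Submodule.smul_mem _ _ hy
  by_contra hne
  have hu : x - B i e x • e' ∈ T i ⊓ F.maxGenEigenspace β :=
    Submodule.sub_mem _ hx (Submodule.smul_mem _ _ hmem)
  obtain ⟨z, hz, hz0⟩ := S.perf i (mul_comm α β ▸ h) hu (sub_ne_zero.2 hne)
  obtain ⟨c, rfl⟩ := hline z hz
  apply hz0
  rw [map_smul, S.symm i he.1 hu.1, map_sub, map_smul, hp, smul_eq_mul, smul_eq_mul, mul_one,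
    sub_self, mul_zero, mul_zero]

/-- The scalars of a closed walk. -/
lemma closed_conj {α β : Ω} (h : α * β = (q : Ω) ^ w) {r : I} {e e' : H}
    (hf : IsFrame F T B α β r e e') {W : Module.End Ω H} (hW : IsWalk ρ τ r r W)
    (j : algebraicClosure ℚ Ω →+* ℂ) :
    ∃ a b : algebraicClosure ℚ Ω, W e = (a : Ω) • e ∧ W e' = (b : Ω) • e' ∧ j b = conj (j a) := by
  have he0 : e ≠ 0 := by
    rintro h0
    have := hf.pair
    rw [h0, map_zero, LinearMap.zero_apply] at this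
    exact zero_ne_one this
  have he0' : e' ≠ 0 := by
    rintro h0
    have := hf.pair
    rw [h0, map_zero] at this
    exact zero_ne_one this
  obtain ⟨c, hc⟩ := hf.line _ (S.walk_part hW hf.mem.2)
  obtain ⟨c', hc'⟩ := hf.line' _ (S.walk_part hW hf.mem'.2)
  have hmem : ∀ x, W x ∈ T r := S.walk_mem hW
  have hmem' : ∀ x ∈ T r, W x ∈ T r := fun x _ => hmem x
  have hpow : ∀ (k : ℕ) (x : T r), (((frobOn S r) ^ k) x : H) = (F ^ k) (x : H) := by
    intro k
    induction k with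
    | zero => intro x; rfl
    | succ k ih =>
      intro x
      rw [pow_succ, Module.End.mul_apply, ih, pow_succ, Module.End.mul_apply]
      rfl
  have hcomm : Commute (frobOn S r) (W.restrict hmem') := by
    ext x
    exact (S.walk_comm hW x).symm
  obtain ⟨a, b, ha, hb, hab⟩ := conj_scalars S.q_ne (frobOn S r) (W.restrict hmem') hcomm
    (formOn S r) (S.formOn_frob r) (S.formOn_nondeg r)
    (fun μ x hx hμ => S.weil r μ x x.2 (fun h0 => hx (Subtype.ext h0)) (congrArg Subtype.val hμ))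
    (fun k => by
      obtain ⟨t, ht⟩ := S.rat r W hW k
      refine ⟨t, ?_⟩
      have h1 := LinearMap.trace_restrict_eq_of_forall_mem (T r) (W ∘ₗ (F ^ k))
        (fun x => hmem _)
      rw [← ht, ← h1]
      congr 1
      ext x
      show W (((frobOn S r) ^ k) x : H) = W ((F ^ k) x)
      rw [hpow]) h (e := ⟨e, hf.mem.1⟩) (e' := ⟨e', hf.mem'.1⟩)
    ((S.mem_gen_iff r α _).2 hf.mem.2) (fun h0 => he0 (congrArg Subtype.val h0))
    (fun x hx => by
      obtain ⟨c, hc⟩ := hf.line x ⟨x.2, (S.mem_gen_iff r α _).1 hx⟩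
      exact ⟨c, Subtype.ext hc⟩)
    ((S.mem_gen_iff r β _).2 hf.mem'.2) (fun h0 => he0' (congrArg Subtype.val h0))
    (fun x hx => by
      obtain ⟨c, hc⟩ := hf.line' x ⟨x.2, (S.mem_gen_iff r β _).1 hx⟩
      exact ⟨c, Subtype.ext hc⟩)
    (c := c) (c' := c') (Subtype.ext hc) (Subtype.ext hc') j
  exact ⟨a, b, by rw [ha, hc], by rw [hb, hc'], hab⟩

variable {α : Ω} (hl : ∀ j, IsLink F T d α j → IsLine F T ρ α j)
include hl

/-- A frame at each vertex, with compatible scalars. -/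
lemma exists_frames {β : Ω} (h : α * β = (q : Ω) ^ w) (j : algebraicClosure ℚ Ω →+* ℂ) :
    ∃ (e e' : I → H) (m : I → ℕ),
      (∀ i, e i ∈ T i ⊓ F.maxGenEigenspace α ∧ e' i ∈ T i ⊓ F.maxGenEigenspace β ∧
        B i (e i) (e' i) = m i) ∧
      (∀ i, ¬ Vert F T d α i → e i = 0 ∧ e' i = 0) ∧
      (∀ i, Vert F T d α i → 0 < m i ∧
        ∀ x ∈ T i ⊓ F.maxGenEigenspace α, ∃ c : Ω, x = c • e i) ∧
      ∀ i i' k, Rel F T d α i i' → ∃ a b : algebraicClosure ℚ Ω,
        B' (ρ i k (e i)) (ρ i' k (e' i')) = a ∧ B' (ρ i' k (e i')) (ρ i k (e' i)) = b ∧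
          j b = conj (j a) := by
  classical
  obtain ⟨r, hr, hgood⟩ := S.exists_root hl
  -- the frames at the roots
  have hfr : ∀ i, Vert F T d α i → ∃ e0 e0', IsFrame F T B α β (r i) e0 e0' := by
    intro i hi
    obtain ⟨f, g, m, hg⟩ := hgood i hi
    obtain ⟨k, hk, ha⟩ := hi
    obtain ⟨e, he, he0, hline⟩ := S.line (hl k hk) ha
    obtain ⟨h1, h2, h3, h4, h5, h6⟩ := hg
    have hm0 : (m : Ω) ≠ 0 := Nat.cast_ne_zero.2 h4.ne'
    have hge : g e ∈ T (r i) ⊓ F.maxGenEigenspace α := S.walk_part h2 he.2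
    have hge0 : g e ≠ 0 := by
      intro h0
      have h7 := h6 e he
      rw [h0, map_zero] at h7
      rcases smul_eq_zero.1 h7.symm with h8 | h8
      · exact hm0 h8
      · exact he0 h8
    obtain ⟨e0', h7⟩ := S.exists_frame h hge hge0 fun x hx => by
      obtain ⟨c, hc⟩ := hline (f x) (S.walk_part h1 hx.2)
      refine ⟨c / m, ?_⟩
      have h8 := h5 x hx
      rw [hc, map_smul] at h8
      rw [div_eq_inv_mul, mul_smul, h8, smul_smul, inv_mul_cancel₀ hm0, one_smul]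
    exact ⟨_, _, h7⟩
  have hfr' : ∀ s : I, ∃ p : H × H, (∃ e0 e0', IsFrame F T B α β s e0 e0') →
      IsFrame F T B α β s p.1 p.2 := by
    intro s
    by_cases hs : ∃ e0 e0', IsFrame F T B α β s e0 e0'
    · obtain ⟨e0, e0', h0⟩ := hs
      exact ⟨(e0, e0'), fun _ => h0⟩
    · exact ⟨(0, 0), fun h0 => absurd h0 hs⟩
  choose p hp using hfr'
  have hgood' : ∀ i, ∃ t : Module.End Ω H × Module.End Ω H × ℕ, Vert F T d α i →
      Good F T B ρ τ α (r i) i t.1 t.2.1 t.2.2 := by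
    intro i
    by_cases hi : Vert F T d α i
    · obtain ⟨f, g, m, hg⟩ := hgood i hi
      exact ⟨(f, g, m), fun _ => hg⟩
    · exact ⟨(0, 0, 0), fun h0 => absurd h0 hi⟩
  choose t ht using hgood'
  refine ⟨fun i => if Vert F T d α i then (t i).1 (p (r i)).1 else 0,
    fun i => if Vert F T d α i then (t i).1 (p (r i)).2 else 0,
    fun i => if Vert F T d α i then (t i).2.2 else 0, fun i => ?_, fun i hi => ?_,
    fun i hi => ?_, fun i i' k hrel => ?_⟩
  · by_cases hi : Vert F T d α i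
    · simp only [if_pos hi]
      have hF := hp (r i) (hfr i hi)
      obtain ⟨h1, h2, h3, h4, h5, h6⟩ := ht i hi
      refine ⟨S.walk_part h1 hF.mem.2, S.walk_part h1 hF.mem'.2, ?_⟩
      have hs1 := S.symm i (S.walk_mem h1 (p (r i)).2) (S.walk_mem h1 (p (r i)).1)
      rw [hs1, h3 _ hF.mem'.1 _ (S.walk_mem h1 _), h5 _ hF.mem, map_smul, smul_eq_mul,
        S.symm (r i) hF.mem.1 hF.mem'.1, hF.pair, mul_one, mul_comm ((t i).2.2 : Ω), ← mul_assoc,
        ← mul_pow, neg_one_mul, neg_neg, one_pow, one_mul]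
    · simp only [if_neg hi]
      exact ⟨Submodule.zero_mem _, Submodule.zero_mem _, by simp⟩
  · simp only [if_neg hi]
    exact ⟨trivial, trivial⟩
  · simp only [if_pos hi]
    have hF := hp (r i) (hfr i hi)
    obtain ⟨h1, h2, h3, h4, h5, h6⟩ := ht i hi
    refine ⟨h4, fun x hx => ?_⟩
    have hm0 : ((t i).2.2 : Ω) ≠ 0 := Nat.cast_ne_zero.2 h4.ne'
    obtain ⟨c, hc⟩ := hF.line _ (S.walk_part h2 hx.2)
    refine ⟨c / (t i).2.2, ?_⟩
    have h8 := h6 x hx
    rw [hc, map_smul] at h8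
    rw [div_eq_inv_mul, mul_smul, h8, smul_smul, inv_mul_cancel₀ hm0, one_smul]
  · have hrr := hr i i' hrel
    obtain ⟨l, hl1, hl2, hl3⟩ := hrel
    have hi : Vert F T d α i := ⟨l, hl1, hl2⟩
    have hi' : Vert F T d α i' := ⟨l, hl1, hl3⟩
    simp only [if_pos hi, if_pos hi']
    have hF := hp (r i) (hfr i hi)
    obtain ⟨h1, h2, h3, -, -, -⟩ := ht i hi
    obtain ⟨k1, k2, k3, -, -, -⟩ := ht i' hi'
    rw [← hrr] at k1 k2 k3 ⊢
    set e0 := (p (r i)).1 with he0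
    set e0' := (p (r i)).2 with he0'
    set f := (t i).1
    set f' := (t i').1
    set g' := (t i').2.1
    have hW : IsWalk ρ τ (r i) (r i) (g' ∘ₗ ((τ i' k ∘ₗ ρ i k) ∘ₗ f)) :=
      (h1.comp (.hop i k i')).comp k2
    obtain ⟨a, b, ha, hb, hab⟩ := S.closed_conj h hF hW j
    have hpair : ∀ x y : H, x ∈ T (r i) → B' (ρ i k (f y)) (ρ i' k (f' x)) =
        B (r i) (g' (τ i' k (ρ i k (f y)))) x := by
      intro x y hx
      have e1 := (S.sim i' k).adj (ρ i k (f y)) (f' x) (S.walk_mem k1 x)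
      simp only [ev] at e1
      rw [← e1, S.symm i' (S.walk_mem k1 x) ((S.sim i' k).mem _), k3 x hx _ ((S.sim i' k).mem _),
        S.symm (r i) (S.walk_mem k2 _) hx, S.sgn_sq]
    refine ⟨a, b, ?_, ?_, hab⟩
    · rw [hpair e0' e0 hF.mem'.1]
      have h9 : g' (τ i' k (ρ i k (f e0))) = (a : Ω) • e0 := ha
      rw [h9, map_smul, LinearMap.smul_apply, hF.pair, smul_eq_mul, mul_one]
    · rw [S.symm' i i' k _ (S.walk_mem h1 e0') _ (S.walk_mem k1 e0), hpair e0 e0' hF.mem.1]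
      have h9 : g' (τ i' k (ρ i k (f e0'))) = (b : Ω) • e0' := hb
      rw [h9, map_smul, LinearMap.smul_apply, S.symm (r i) hF.mem.1 hF.mem'.1, hF.pair,
        smul_eq_mul, mul_one, mul_comm (b : Ω), S.sgn_sq]

end IsSystem

end Run7.h615.WS
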