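import Pool.Agent.Run7.h615.WS.Nondeg
import Pool.Agent.Run7.h615.WL.Alg
import Pool.Agent.Run7.h615.WM.Lin

/-!
# From bases of fibrations to the criterion for the strata
-/

set_option autoImplicit false

namespace Run7.h615.WS

universe u v

open Module Pool.Agent.Y143 Pool.Agent.Helper60K9.KL Run7.h615.WM Run7.h615.WL
open scoped ComplexConjugate

variable {Ω : Type u} [Field Ω] [CharZero Ω] {Γ : Type} {n q : ℕ}

section

variable (X : SpecialFibre.{u, v} Ω Γ n q)

lemma frob_pair (a : ℕ) (x y : X.H a) :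
    X.pair a (X.act a X.frob x) (X.act a X.frob y) = (q : Ω) ^ ((n : ℤ) - a) * X.pair a x y := by
  rw [X.act_pair, X.frob_inv, Units.val_zpow_eq_zpow_val, X.cyc_frob]

lemma frob_lefpow (a s : ℕ) (x : X.H a) :
    X.act a X.frob ((X.lef a ^ s) x) = (q : Ω) ^ s • (X.lef a ^ s) (X.act a X.frob x) := by
  induction s generalizing x with
  | zero => simp
  | succ s ih =>
    rw [pow_succ, Module.End.mul_apply, Module.End.mul_apply, ih, X.lef_act, map_smul, smul_smul,
      X.cyc_frob, pow_succ]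

lemma formL_frob (a s : ℕ) {w : ℕ} (h : (n : ℤ) - a = w + s) (x y : X.H a) :
    formL X a s (X.act a X.frob x) (X.act a X.frob y) = (q : Ω) ^ w * formL X a s x y := by
  have hq : (q : Ω) ≠ 0 := Nat.cast_ne_zero.2 X.q_ne
  show X.pair a (X.act a X.frob x) ((X.lef a ^ s) (X.act a X.frob y)) =
    (q : Ω) ^ w * X.pair a x ((X.lef a ^ s) y)
  have h1 := frob_pair X a x ((X.lef a ^ s) y)
  rw [frob_lefpow, map_smul, smul_eq_mul, h, zpow_add₀ hq, zpow_natCast, zpow_natCast] at h1
  have h2 : (q : Ω) ^ s ≠ 0 := pow_ne_zero _ hq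
  apply mul_left_cancel₀ h2
  linear_combination h1

lemma lefpow_pair (a s : ℕ) (x y : X.H a) :
    X.pair a ((X.lef a ^ s) x) y = X.pair a x ((X.lef a ^ s) y) := by
  induction s generalizing x y with
  | zero => rfl
  | succ s ih =>
    rw [pow_succ, Module.End.mul_apply, ih, X.lef_pair, ← Module.End.mul_apply, ← pow_succ',
      pow_succ]

lemma formL_symm (a s : ℕ) {w : ℕ} {x y : X.H a} (hx : x ∈ X.gr a w) :
    formL X a s y x = (-1) ^ w * formL X a s x y := by
  show X.pair a y ((X.lef a ^ s) x) = (-1) ^ w * X.pair a x ((X.lef a ^ s) y)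
  rw [← lefpow_pair, X.pair_symm a w x _ hx, zpow_natCast]

end

variable {X : SpecialFibre.{u, v} Ω Γ n q} {a w : ℕ} {S : Submodule Ω (X.H a)}
  {S' : Submodule Ω (X.H (a + 1))} {I J : Type} [Fintype I] [Fintype J]
  {R : Bases Ω (X.H a) (X.H (a + 1)) I J}

lemma isSystem (hw : a + 1 + w ≤ n)
    (h1 : IsSplitting (X.gr a) (X.pair a) (X.act a X.frob) R.comp)
    (h2 : IsSplitting (X.gr (a + 1)) (X.pair (a + 1)) (X.act (a + 1) X.frob) R.dbl)
    (h3 : R.IsValid q w (X.act a X.frob) (X.res a) (formL X (a + 1) (n - a - 1 - w)) (X.gr a w)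
      S S') :
    IsSystem q w (X.act a X.frob) (X.act (a + 1) X.frob) R.T R.form
      (formL X (a + 1) (n - a - 1 - w)) (R.resTo (X.res a)) R.push R.deg where
  q_ne := X.q_ne
  base := h3.base
  sim := h3.sim
  comm := fun i j x => by
    show R.dbl j (X.res a (R.comp i (X.act a X.frob x))) =
      X.act (a + 1) X.frob (R.dbl j (X.res a (R.comp i x)))
    rw [h1.frob, ← X.res_act, h2.frob]
  frob' := fun x y => formL_frob X (a + 1) _ (by
    have : (n : ℤ) = a + 1 + w + (n - a - 1 - w : ℕ) := by omega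
    push_cast
    omega) x y
  symm' := fun i i' j x hx y hy => by
    apply formL_symm
    exact h2.gr j _ _ (X.res_gr a _ _ (h1.gr i _ _ (h3.le i hx).1))
  weil := fun i μ x hx hx0 hμ => X.weil a w μ x (h3.le i hx).1 hx0 hμ
  rat := h3.rational

lemma comp_T (h1 : IsSplitting (X.gr a) (X.pair a) (X.act a X.frob) R.comp)
    (h3 : R.IsValid q w (X.act a X.frob) (X.res a) (formL X (a + 1) (n - a - 1 - w)) (X.gr a w)
      S S') (i : I) {t : X.H a} (ht : t ∈ ⨆ i, R.T i) : R.comp i t ∈ R.T i := by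
  have hle : (⨆ i, R.T i) ≤ (R.T i).comap (R.comp i) := by
    apply iSup_le
    intro k x hx
    show R.comp i x ∈ R.T i
    have hxk : R.comp k x = x := h1.self k (h3.le k hx).2
    by_cases hk : i = k
    · subst hk
      rwa [hxk]
    · rw [← hxk, h1.orth i k x hk]
      exact Submodule.zero_mem _
  exact hle ht

/-- The simple spectrum gives lines. -/
lemma isLine (hw : a + 1 + w ≤ n)
    (h1 : IsSplitting (X.gr a) (X.pair a) (X.act a X.frob) R.comp)
    (h2 : IsSplitting (X.gr (a + 1)) (X.pair (a + 1)) (X.act (a + 1) X.frob) R.dbl)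
    (h3 : R.IsValid q w (X.act a X.frob) (X.res a) (formL X (a + 1) (n - a - 1 - w)) (X.gr a w)
      S S')
    (h4 : R.HasSimpleLinks (X.act a X.frob) (X.act (a + 1) X.frob)
      (formL X (a + 1) (n - a - 1 - w)) (X.gr (a + 1) w) S') (α : Ω) (j : J)
    (hj : IsLink (X.act a X.frob) R.T R.deg α j) :
    IsLine (X.act a X.frob) R.T (R.resTo (X.res a)) α j := by
  have h5 := h4 α j hj
  have := finrank_le_one_iff.1 h5
  obtain ⟨g, hg⟩ := this
  refine ⟨g, fun i x hx => ?_⟩
  have hs := isSystem hw h1 h2 h3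
  have hmem : R.resTo (X.res a) i j x ∈ perpIn (formL X (a + 1) (n - a - 1 - w))
      (X.gr (a + 1) w ⊓ (X.act (a + 1) X.frob).maxGenEigenspace α ⊓
        LinearMap.range (R.dbl j)) S' := by
    refine ⟨⟨⟨?_, ?_⟩, ?_⟩, fun s hs' => h3.orth i j x hx.1 s hs'⟩
    · exact h2.gr j _ _ (X.res_gr a _ _ (h1.gr i _ _ (h3.le i hx.1).1))
    · exact map_gen (R.resTo (X.res a) i j) (fun x => hs.comm i j x) hx.2
    · exact ⟨_, rfl⟩
  obtain ⟨c, hc⟩ := hg ⟨_, hmem⟩
  exact ⟨c, (congrArg Subtype.val hc).symm⟩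

lemma allGenerated_of_bases [IsAlgClosed Ω] (hw : a + 1 + w ≤ n) (hS : S ≤ X.gr a w)
    (hSS : ∀ s ∈ S, X.res a s ∈ S') (h : FromBases X a w S S') : AllGenerated X a w S := by
  obtain ⟨I, J, _, _, R, h1, h2, h3, h4⟩ := h
  have hs := isSystem hw h1 h2 h3
  have hfin : Module.Finite Ω (X.H a) := X.finite a
  set Q := formL X (a + 1) (n - a - 1 - w) with hQ
  have hT : (⨆ i, R.T i) ≤ X.gr a w := iSup_le fun i => (h3.le i).trans inf_le_left
  -- restrictions of the `T i`
  have hsum : ∀ t : X.H a, X.res a t = ∑ j, ∑ i, R.resTo (X.res a) i j (R.comp i t) := by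
    intro t
    rw [← h2.sum (X.res a t)]
    refine Finset.sum_congr rfl fun j _ => ?_
    conv_lhs => rw [← h1.sum t, map_sum, map_sum]
    refine Finset.sum_congr rfl fun i _ => ?_
    show _ = R.dbl j (X.res a (R.comp i (R.comp i t)))
    rw [h1.idem]
  have horth : ∀ s ∈ S, ∀ t ∈ ⨆ i, R.T i, Q (X.res a s) (X.res a t) = 0 := by
    intro s hs' t ht
    have e1 : Q (X.res a s) (X.res a t) = (-1) ^ w * Q (X.res a t) (X.res a s) :=
      formL_symm X (a + 1) _ (X.res_gr a _ _ (hT ht))
    rw [e1, hsum t, map_sum, LinearMap.sum_apply, Finset.sum_eq_zero, mul_zero]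
    intro j _
    rw [map_sum, LinearMap.sum_apply]
    exact Finset.sum_eq_zero fun i _ => h3.orth i j _ (comp_T h1 h3 i ht) _ (hSS s hs')
  -- nondegeneracy on the `T i`
  have hnd : ∀ t ∈ ⨆ i, R.T i, (∀ t' ∈ ⨆ i, R.T i, Q (X.res a t) (X.res a t') = 0) →
      X.res a t = 0 := by
    set N : Submodule Ω (X.H a) := perpIn (Q.compl₁₂ (X.res a) (X.res a)) (⨆ i, R.T i)
      (⨆ i, R.T i) with hN
    have hTF : ∀ x ∈ ⨆ i, R.T i, X.act a X.frob x ∈ ⨆ i, R.T i := by
      intro x hx
      have hle : (⨆ i, R.T i) ≤ (⨆ i, R.T i).comap (X.act a X.frob) :=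
        iSup_le fun i y hy => Submodule.mem_iSup_of_mem i ((h3.base i).stable y hy)
      exact hle hx
    have hTF' : ∀ y ∈ ⨆ i, R.T i, ∃ x ∈ ⨆ i, R.T i, X.act a X.frob x = y := by
      intro y hy
      have hle : (⨆ i, R.T i) ≤ (⨆ i, R.T i).map (X.act a X.frob) :=
        iSup_le fun i y hy => by
          obtain ⟨x, hx, hxy⟩ := hs.frob_surj i hy
          exact ⟨x, Submodule.mem_iSup_of_mem i hx, hxy⟩
      obtain ⟨x, hx, hxy⟩ := hle hy
      exact ⟨x, hx, hxy⟩
    have hNF : ∀ x ∈ N, X.act a X.frob x ∈ N := by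
      rintro x ⟨hx1, hx2⟩
      refine ⟨hTF x hx1, fun y hy => ?_⟩
      obtain ⟨z, hz, rfl⟩ := hTF' y hy
      show Q (X.res a (X.act a X.frob x)) (X.res a (X.act a X.frob z)) = 0
      rw [← X.res_act, ← X.res_act, hs.frob']
      have : Q (X.res a x) (X.res a z) = 0 := hx2 z hz
      rw [this, mul_zero]
    have hle : N ≤ LinearMap.ker (X.res a) := by
      rw [Submodule.eq_iSup_inf_genEigenspace (p := N) (f := X.act a X.frob) ⊤ hNF
        (Module.End.iSup_maxGenEigenspace_eq_top _)]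
      apply iSup_le
      rintro α t ⟨⟨ht1, ht2⟩, ht3⟩
      show X.res a t = 0
      by_cases ht0 : t = 0
      · rw [ht0, map_zero]
      have hα : α ≠ 0 := eigenvalue_ne_zero X a ht3 ht0
      have hy : ∀ i, R.comp i t ∈ R.T i ⊓ (X.act a X.frob).maxGenEigenspace α := fun i =>
        ⟨comp_T h1 h3 i ht1, map_gen (R.comp i) (h1.frob i) ht3⟩
      have hcore := hs.nondeg_of_simple (α := α) (β := (q : Ω) ^ w / α) (mul_div_cancel₀ _ hα)
        (isLine hw h1 h2 h3 h4 α) (fun i => R.comp i t) hy (fun i' y' hy' => by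
          have e0 : Q (X.res a t) (X.res a y') = 0 :=
            ht2 y' (Submodule.mem_iSup_of_mem i' hy')
          rw [← e0]
          -- orthogonality of the different `D_j`
          have e1 : X.res a y' = ∑ j, R.resTo (X.res a) i' j y' := by
            rw [hsum y']
            refine Finset.sum_congr rfl fun j _ => ?_
            rw [Finset.sum_eq_single_of_mem i' (Finset.mem_univ i')]
            · rw [h1.self i' (h3.le i' hy').2]
            · intro k _ hk
              rw [← h1.self i' (h3.le i' hy').2, h1.orth k i' y' hk, map_zero]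
          have e2 : ∀ j, R.dbl j (X.res a t) = ∑ i, R.resTo (X.res a) i j (R.comp i t) := by
            intro j
            conv_lhs => rw [← h1.sum t, map_sum, map_sum]
            refine Finset.sum_congr rfl fun i _ => ?_
            show _ = R.dbl j (X.res a (R.comp i (R.comp i t)))
            rw [h1.idem]
          rw [e1, map_sum]
          refine Finset.sum_congr rfl fun j _ => ?_
          rw [← e2 j]
          have hpair : ∀ x y : X.H (a + 1), Q (R.dbl j x) y = Q x (R.dbl j y) := h3.dbl j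
          rw [hpair]
          congr 1
          show R.dbl j (R.dbl j _) = R.dbl j _
          rw [h2.idem])
      rw [hsum t]
      exact Finset.sum_eq_zero fun j _ => hcore j
    intro t ht h0
    exact hle ⟨ht, h0⟩
  refine ⟨(X.gr a w ⊓ LinearMap.ker (X.res a)) ⊔ ⨆ i, R.T i, sup_le inf_le_left hT, ?_, ?_, ?_⟩
  · intro y hy
    obtain ⟨u, hu, t, ht, rfl⟩ := Submodule.mem_sup.1 (h3.span hy)
    obtain ⟨s, hs', k, hk, rfl⟩ := Submodule.mem_sup.1 hu
    have hkG : k ∈ X.gr a w := by
      have e1 := Submodule.sub_mem _ (Submodule.sub_mem _ hy (hT ht)) (hS hs')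
      rwa [add_sub_cancel_right, add_sub_cancel_left] at e1
    rw [add_assoc]
    exact Submodule.add_mem_sup hs' (Submodule.add_mem_sup ⟨hkG, hk⟩ ht)
  · intro s hs' t ht
    obtain ⟨k, hk, u, hu, rfl⟩ := Submodule.mem_sup.1 ht
    have hk' : X.res a k = 0 := hk.2
    show Q (X.res a s) (X.res a (k + u)) = 0
    rw [map_add, hk', zero_add]
    exact horth s hs' u hu
  · intro t ht h0
    obtain ⟨k, hk, u, hu, rfl⟩ := Submodule.mem_sup.1 ht
    have hk' : X.res a k = 0 := hk.2
    rw [map_add, hk', zero_add]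
    apply hnd u hu
    intro t' ht'
    have := h0 t' (Submodule.mem_sup_right ht')
    rwa [map_add, hk', zero_add] at this

end Run7.h615.WS
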