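import Pool.Agent.Run7.h615.WS.Core

/-!
# Links, lines and reversible walks
-/

set_option autoImplicit false
set_option linter.unusedSectionVars false

namespace Run7.h615.WS

universe u v

open Module Pool.Agent.Y143
open scoped ComplexConjugate

variable {Ω : Type u} [Field Ω] [CharZero Ω] {H : Type v} [AddCommGroup H] [Module Ω H]
  {H' : Type v} [AddCommGroup H'] [Module Ω H'] {I J : Type} [Fintype I] [Fintype J]

/-- The component `i` is active for `j` and `α`. -/
def Act (F : Module.End Ω H) (T : I → Submodule Ω H) (d : I → J → ℕ) (α : Ω) (i : I) (j : J) :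
    Prop :=
  d i j ≠ 0 ∧ T i ⊓ F.maxGenEigenspace α ≠ ⊥

/-- Two different components are active for `j`. -/
def IsLink (F : Module.End Ω H) (T : I → Submodule Ω H) (d : I → J → ℕ) (α : Ω) (j : J) : Prop :=
  ∃ i i', i ≠ i' ∧ Act F T d α i j ∧ Act F T d α i' j

/-- The restrictions of the classes for `α` to `j` are in a line. -/
def IsLine (F : Module.End Ω H) (T : I → Submodule Ω H) (ρ : I → J → H →ₗ[Ω] H') (α : Ω)
    (j : J) : Prop :=
  ∃ g : H', ∀ i, ∀ x ∈ T i ⊓ F.maxGenEigenspace α, ∃ c : Ω, ρ i j x = c • g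

namespace IsSystem

variable {q w : ℕ} {F : Module.End Ω H} {F' : Module.End Ω H'} {T : I → Submodule Ω H}
  {B : I → H →ₗ[Ω] H →ₗ[Ω] Ω} {B' : H' →ₗ[Ω] H' →ₗ[Ω] Ω} {ρ : I → J → H →ₗ[Ω] H'}
  {τ : I → J → H' →ₗ[Ω] H} {d : I → J → ℕ} (S : IsSystem q w F F' T B B' ρ τ d)
  [FiniteDimensional Ω H]
include S

/-- The part of `T i` for `α` is a line. -/
lemma line {α : Ω} {i : I} {j : J} (hl : IsLine F T ρ α j) (ha : Act F T d α i j) :
    ∃ e ∈ T i ⊓ F.maxGenEigenspace α, e ≠ 0 ∧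
      ∀ x ∈ T i ⊓ F.maxGenEigenspace α, ∃ c : Ω, x = c • e := by
  obtain ⟨g, hg⟩ := hl
  obtain ⟨e, he, he0⟩ := (Submodule.ne_bot_iff _).1 ha.2
  refine ⟨e, he, he0, fun x hx => ?_⟩
  obtain ⟨c, hc⟩ := hg i e he
  obtain ⟨b, hb⟩ := hg i x hx
  have hc0 : c ≠ 0 := by
    rintro rfl
    rw [zero_smul] at hc
    exact he0 (S.inj i j ha.1 he.1 hc)
  refine ⟨b / c, ?_⟩
  rw [← sub_eq_zero]
  apply S.inj i j ha.1 (Submodule.sub_mem _ hx.1 (Submodule.smul_mem _ _ he.1))
  rw [map_sub, map_smul, hc, hb, smul_smul, div_mul_cancel₀ _ hc0, sub_self]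

/-- For a link, the class on the other component with the same restriction. -/
lemma exists_other {α : Ω} {i i' : I} {j : J} (hl : IsLine F T ρ α j) (ha : Act F T d α i' j)
    {x : H} (hx : x ∈ T i ⊓ F.maxGenEigenspace α) :
    ∃ x' ∈ T i' ⊓ F.maxGenEigenspace α, ρ i' j x' = ρ i j x := by
  obtain ⟨g, hg⟩ := hl
  obtain ⟨e, he, he0⟩ := (Submodule.ne_bot_iff _).1 ha.2
  obtain ⟨c, hc⟩ := hg i' e he
  obtain ⟨b, hb⟩ := hg i x hx
  have hc0 : c ≠ 0 := by
    rintro rfl
    rw [zero_smul] at hc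
    exact he0 (S.inj i' j ha.1 he.1 hc)
  refine ⟨(b / c) • e, Submodule.smul_mem _ _ he, ?_⟩
  rw [map_smul, hc, hb, smul_smul, div_mul_cancel₀ _ hc0]

lemma tau_rho (i : I) (j : J) {x : H} (hx : x ∈ T i) : τ i j (ρ i j x) = (d i j : Ω) • x := by
  rw [← sub_eq_zero]
  apply S.nondeg i (Submodule.sub_mem _ ((S.sim i j).mem _) (Submodule.smul_mem _ _ hx))
  intro y hy
  have e1 := (S.sim i j).adj (ρ i j x) y hy
  have e2 := (S.sim i j).form x hx y hy
  simp only [ev] at e1 e2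
  rw [map_sub, LinearMap.sub_apply, e1, e2, map_smul, LinearMap.smul_apply, smul_eq_mul,
    sub_self]

/-- The walk along a link is reversible. -/
lemma good_hop {α : Ω} {i i' : I} {j : J} (hl : IsLine F T ρ α j) (ha : Act F T d α i j)
    (ha' : Act F T d α i' j) :
    Good F T B ρ τ α i i' (τ i' j ∘ₗ ρ i j) (τ i j ∘ₗ ρ i' j) (d i' j * d i j) := by
  have key : ∀ {i i' : I}, Act F T d α i j → Act F T d α i' j →
      ∀ x ∈ T i ⊓ F.maxGenEigenspace α,
        τ i j (ρ i' j (τ i' j (ρ i j x))) = ((d i' j * d i j : ℕ) : Ω) • x := by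
    intro i i' ha ha' x hx
    obtain ⟨x', hx', h⟩ := S.exists_other hl ha' hx
    rw [← h, S.tau_rho i' j hx'.1, map_smul, map_smul, h, S.tau_rho i j hx.1, smul_smul]
    push_cast
    rfl
  refine ⟨.hop i j i', .hop i' j i, S.hop_adj i j i', Nat.mul_pos
    (Nat.pos_of_ne_zero ha'.1) (Nat.pos_of_ne_zero ha.1), key ha ha', ?_⟩
  intro y hy
  have := key ha' ha y hy
  rw [mul_comm (d i j)] at this
  exact this

/-- The relation generated by the links. -/
def _root_.Run7.h615.WS.Rel (F : Module.End Ω H) (T : I → Submodule Ω H) (d : I → J → ℕ)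
    (α : Ω) (i i' : I) : Prop :=
  ∃ j, IsLink F T d α j ∧ Act F T d α i j ∧ Act F T d α i' j

/-- The component is active for a link. -/
def _root_.Run7.h615.WS.Vert (F : Module.End Ω H) (T : I → Submodule Ω H) (d : I → J → ℕ)
    (α : Ω) (i : I) : Prop := ∃ j, IsLink F T d α j ∧ Act F T d α i j

variable {α : Ω} (hl : ∀ j, IsLink F T d α j → IsLine F T ρ α j)
include hl

lemma good_of_gen {i i' : I} (h : Relation.EqvGen (Rel F T d α) i i') :
    i = i' ∨ ∃ f g m, Good F T B ρ τ α i i' f g m := by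
  induction h with
  | rel x y h =>
    obtain ⟨j, hj, h1, h2⟩ := h
    exact Or.inr ⟨_, _, _, S.good_hop (hl j hj) h1 h2⟩
  | refl x => exact Or.inl rfl
  | symm x y _ ih =>
    rcases ih with ih | ⟨f, g, m, ih⟩
    · exact Or.inl ih.symm
    · exact Or.inr ⟨g, f, m, S.good_symm ih⟩
  | trans x y z _ _ ih1 ih2 =>
    rcases ih1 with rfl | ⟨f, g, m, ih1⟩
    · exact ih2
    · rcases ih2 with rfl | ⟨f', g', m', ih2⟩
      · exact Or.inr ⟨f, g, m, ih1⟩
      · exact Or.inr ⟨_, _, _, S.good_trans ih1 ih2⟩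

/-- There is a reversible walk to each vertex from the chosen vertex of its class. -/
lemma exists_root : ∃ r : I → I, (∀ i i', Rel F T d α i i' → r i = r i') ∧
    ∀ i, Vert F T d α i → ∃ f g m, Good F T B ρ τ α (r i) i f g m := by
  classical
  let s : Setoid I := Relation.EqvGen.setoid (Rel F T d α)
  refine ⟨fun i => (Quotient.mk s i).out, fun i i' h => ?_, fun i hi => ?_⟩
  · have : Quotient.mk s i = Quotient.mk s i' := Quotient.sound (Relation.EqvGen.rel _ _ h)
    simp only [this]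
  · have h1 : Relation.EqvGen (Rel F T d α) (Quotient.mk s i).out i :=
      Quotient.exact (Quotient.out_eq (Quotient.mk s i))
    rcases S.good_of_gen hl h1 with h2 | h2
    · obtain ⟨j, hj, ha⟩ := hi
      simp only [h2]
      exact ⟨_, _, _, S.good_hop (hl j hj) ha ha⟩
    · exact h2

end IsSystem

end Run7.h615.WS
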