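import Pool.Agent.Run7.h615.WS.Fin

/-!
# The core theorem
-/

set_option autoImplicit false
set_option linter.unusedSectionVars false

namespace Run7.h615.WS

universe u v

open Module Pool.Agent.Y143
open scoped ComplexConjugate

variable {Ω : Type u} [Field Ω] [CharZero Ω] {H : Type v} [AddCommGroup H] [Module Ω H]
  {H' : Type v} [AddCommGroup H'] [Module Ω H'] {I J : Type} [Fintype I] [Fintype J]

namespace IsSystem

variable {q w : ℕ} {F : Module.End Ω H} {F' : Module.End Ω H'} {T : I → Submodule Ω H}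
  {B : I → H →ₗ[Ω] H →ₗ[Ω] Ω} {B' : H' →ₗ[Ω] H' →ₗ[Ω] Ω} {ρ : I → J → H →ₗ[Ω] H'}
  {τ : I → J → H' →ₗ[Ω] H} {d : I → J → ℕ} (S : IsSystem q w F F' T B B' ρ τ d)
  [FiniteDimensional Ω H] [IsAlgClosed Ω]
include S

/-- If `j` is not a link then the restrictions of all classes but one are zero. -/
lemma zero_of_not_link {α : Ω} {i : I} {j : J} (ha : Act F T d α i j)
    (hl : ¬ IsLink F T d α j) {k : I} (hk : k ≠ i) {x : H}
    (hx : x ∈ T k ⊓ F.maxGenEigenspace α) : ρ k j x = 0 := by
  by_cases hd : d k j = 0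
  · exact (S.sim k j).zero hd x hx.1
  · have h1 : ¬ Act F T d α k j := fun hc => hl ⟨k, i, hk, hc, ha⟩
    have h2 : T k ⊓ F.maxGenEigenspace α = ⊥ := by
      by_contra hne
      exact h1 ⟨hd, hne⟩
    rw [h2] at hx
    rw [show x = 0 from hx, map_zero]

/-- The classes on the components which are not active for links. -/
lemma zero_of_not_vert {α : Ω} (y : I → H)
    (hy : ∀ i, y i ∈ T i ⊓ F.maxGenEigenspace α)
    (h0 : ∀ i', ∀ y' ∈ T i', ∑ j, B' (∑ i, ρ i j (y i)) (ρ i' j y') = 0) {i : I}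
    (hi : ¬ Vert F T d α i) (j : J) : ρ i j (y i) = 0 := by
  by_cases hbot : T i ⊓ F.maxGenEigenspace α = ⊥
  · have := hy i
    rw [hbot] at this
    rw [show y i = 0 from this, map_zero]
  have h1 : ∀ j, ∀ y' ∈ T i, B' (∑ k, ρ k j (y k)) (ρ i j y') = (d i j : Ω) * B i (y i) y' := by
    intro j y' hy'
    by_cases hd : d i j = 0
    · rw [(S.sim i j).zero hd y' hy', map_zero, hd, Nat.cast_zero, zero_mul]
    · have hact : Act F T d α i j := ⟨hd, hbot⟩
      have hnl : ¬ IsLink F T d α j := fun hc => hi ⟨j, hc, hact⟩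
      rw [Finset.sum_eq_single_of_mem i (Finset.mem_univ i)
        (fun k _ hk => S.zero_of_not_link hact hnl hk (hy k))]
      exact (S.sim i j).form _ (hy i).1 _ hy'
  have h2 : ∀ y' ∈ T i, (∑ j, (d i j : Ω)) * B i (y i) y' = 0 := by
    intro y' hy'
    rw [Finset.sum_mul, ← h0 i y' hy']
    exact Finset.sum_congr rfl fun j _ => (h1 j y' hy').symm
  by_cases hs : ∑ j, d i j = 0
  · have hd : d i j = 0 := (Finset.sum_eq_zero_iff.1 hs) j (Finset.mem_univ j)
    exact (S.sim i j).zero hd _ (hy i).1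
  · have hy0 : y i = 0 := by
      apply S.nondeg i (hy i).1
      intro y' hy'
      rcases mul_eq_zero.1 (h2 y' hy') with h3 | h3
      · exact absurd (by exact_mod_cast h3) hs
      · exact h3
    rw [hy0, map_zero]

/-- **The core theorem.** -/
theorem nondeg_of_simple {α β : Ω} (h : α * β = (q : Ω) ^ w)
    (hl : ∀ j, IsLink F T d α j → IsLine F T ρ α j) (y : I → H)
    (hy : ∀ i, y i ∈ T i ⊓ F.maxGenEigenspace α)
    (h0 : ∀ i', ∀ y' ∈ T i', ∑ j, B' (∑ i, ρ i j (y i)) (ρ i' j y') = 0) (j : J) :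
    ∑ i, ρ i j (y i) = 0 := by
  classical
  have ι : algebraicClosure ℚ Ω →+* ℂ := by
    have : Algebra.IsAlgebraic ℚ (algebraicClosure ℚ Ω) := ⟨fun x =>
      (isAlgebraic_algebraMap_iff (algebraMap (algebraicClosure ℚ Ω) Ω).injective).1
        (mem_algebraicClosure_iff.1 x.2)⟩
    exact (IsAlgClosed.lift : algebraicClosure ℚ Ω →ₐ[ℚ] ℂ).toRingHom
  obtain ⟨e, e', m, h1, h2, h3, h4⟩ := S.exists_frames hl h ι
  -- the coefficients of the classes
  have ht : ∀ i, ∃ t : Ω, ∀ k, ρ i k (y i) = t • ρ i k (e i) := by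
    intro i
    by_cases hi : Vert F T d α i
    · obtain ⟨c, hc⟩ := (h3 i hi).2 (y i) (hy i)
      exact ⟨c, fun k => by rw [hc, map_smul]⟩
    · exact ⟨0, fun k => by rw [S.zero_of_not_vert y hy h0 hi k, zero_smul]⟩
  choose t ht using ht
  set b : J → I → I → Ω := fun k i i' => B' (ρ i k (e i)) (ρ i' k (e' i')) with hb
  -- vanishing for inactive components
  have hz : ∀ i k, ¬ Act F T d α i k → ρ i k (e i) = 0 ∧ ρ i k (e' i) = 0 := by
    intro i k hik
    by_cases hd : d i k = 0
    · exact ⟨(S.sim i k).zero hd _ (h1 i).1.1, (S.sim i k).zero hd _ (h1 i).2.1.1⟩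
    · have hbot : T i ⊓ F.maxGenEigenspace α = ⊥ := by
        by_contra hne
        exact hik ⟨hd, hne⟩
      have hv : ¬ Vert F T d α i := fun ⟨l, _, hl'⟩ => hl'.2 hbot
      obtain ⟨h5, h6⟩ := h2 i hv
      rw [h5, h6, map_zero]
      exact ⟨rfl, rfl⟩
  -- for each `k` the restrictions are multiples of one class
  have hg : ∀ k, ∃ g : H', ∀ i, ∃ c : Ω, ρ i k (e i) = c • g := by
    intro k
    by_cases hk : IsLink F T d α k
    · obtain ⟨g, hg⟩ := hl k hk
      exact ⟨g, fun i => hg i (e i) (h1 i).1⟩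
    · by_cases hex : ∃ i, Act F T d α i k
      · obtain ⟨i0, hi0⟩ := hex
        refine ⟨ρ i0 k (e i0), fun i => ?_⟩
        by_cases hi : i = i0
        · exact ⟨1, by rw [hi, one_smul]⟩
        · exact ⟨0, by rw [S.zero_of_not_link hi0 hk hi (h1 i).1, zero_smul]⟩
      · push Not at hex
        exact ⟨0, fun i => ⟨0, by rw [(hz i k (hex i)).1, smul_zero]⟩⟩
  have hR : ∀ k i i' l l', b k i i' * b k l l' = b k i l' * b k l i' := by
    intro k i i' l l'
    obtain ⟨g, hg⟩ := hg k
    obtain ⟨c, hc⟩ := hg i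
    obtain ⟨c', hc'⟩ := hg l
    simp only [hb]
    rw [hc, hc']
    simp only [map_smul, LinearMap.smul_apply, smul_eq_mul]
    ring
  have hp : ∀ k i, ∃ r : ℕ, b k i i = r := by
    intro k i
    refine ⟨d i k * m i, ?_⟩
    have h5 := (S.sim i k).form _ (h1 i).1.1 _ (h1 i).2.1.1
    simp only [hb]
    simp only [ev] at h5
    rw [h5, (h1 i).2.2]
    push_cast
    rfl
  -- the entries are algebraic numbers
  have hK : ∀ k i i', ∃ x z : algebraicClosure ℚ Ω, (x : Ω) = b k i i' ∧ (z : Ω) = b k i' i ∧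
      ι z = conj (ι x) := by
    intro k i i'
    by_cases hlk : IsLink F T d α k ∧ Act F T d α i k ∧ Act F T d α i' k
    · obtain ⟨x, z, hx, hz', hxz⟩ := h4 i i' k ⟨k, hlk⟩
      exact ⟨x, z, hx.symm, hz'.symm, hxz⟩
    · by_cases hii : i = i'
      · subst hii
        obtain ⟨r, hr⟩ := hp k i
        refine ⟨r, r, ?_, ?_, ?_⟩
        · rw [hr]
          simp
        · rw [hr]
          simp
        · simp
      · have hzero : b k i i' = 0 ∧ b k i' i = 0 := by
          simp only [hb]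
          by_cases ha : Act F T d α i k
          · by_cases ha' : Act F T d α i' k
            · exact absurd ⟨⟨i, i', hii, ha, ha'⟩, ha, ha'⟩ hlk
            · rw [(hz i' k ha').1, (hz i' k ha').2]
              simp
          · rw [(hz i k ha).1, (hz i k ha).2]
            simp
        refine ⟨0, 0, ?_, ?_, ?_⟩
        · rw [hzero.1]
          rfl
        · rw [hzero.2]
          rfl
        · simp
  have hKb : ∀ k i i', ∃ x : algebraicClosure ℚ Ω, (x : Ω) = b k i i' := fun k i i' =>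
    ⟨_, (hK k i i').choose_spec.choose_spec.1⟩
  choose bK hbK using hKb
  have hH : ∀ k i i', ι (bK k i' i) = conj (ι (bK k i i')) := by
    intro k i i'
    obtain ⟨x, z, hx, hz', hxz⟩ := hK k i i'
    have e1 : bK k i i' = x := Subtype.ext ((hbK k i i').trans hx.symm)
    have e2 : bK k i' i = z := Subtype.ext ((hbK k i' i).trans hz'.symm)
    rw [e1, e2, hxz]
  -- the linear system
  have hsys : ∀ i', ∑ k, ∑ i, t i * b k i i' = 0 := by
    intro i'
    rw [← h0 i' (e' i') (h1 i').2.1.1]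
    refine Finset.sum_congr rfl fun k _ => ?_
    rw [map_sum, LinearMap.sum_apply]
    refine Finset.sum_congr rfl fun i _ => ?_
    rw [ht i k, map_smul, LinearMap.smul_apply, smul_eq_mul]
  have hker := psd_kernel' (algebraicClosure ℚ Ω) ι b bK hbK hH hR hp t hsys
  -- conclusion
  have hsum : ∑ i, ρ i j (y i) = ∑ i, t i • ρ i j (e i) :=
    Finset.sum_congr rfl fun i _ => ht i j
  rw [hsum]
  by_cases hex : ∃ i0, Act F T d α i0 j ∧ Vert F T d α i0
  · obtain ⟨i0, hi0, hv⟩ := hex
    obtain ⟨hm, -⟩ := h3 i0 hv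
    have hd : (d i0 j : Ω) * m i0 ≠ 0 :=
      mul_ne_zero (Nat.cast_ne_zero.2 hi0.1) (Nat.cast_ne_zero.2 hm.ne')
    have hb0 : b j i0 i0 = (d i0 j : Ω) * m i0 := by
      have h5 := (S.sim i0 j).form _ (h1 i0).1.1 _ (h1 i0).2.1.1
      simp only [hb]
      simp only [ev] at h5
      rw [h5, (h1 i0).2.2]
    obtain ⟨g, hg⟩ := hg j
    choose c hc using hg
    have h6 : ∑ i, t i • ρ i j (e i) = (∑ i, t i * c i) • g := by
      rw [Finset.sum_smul]
      exact Finset.sum_congr rfl fun i _ => by rw [hc i, smul_smul]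
    have h7 : B' (∑ i, t i • ρ i j (e i)) (ρ i0 j (e' i0)) = 0 := by
      rw [map_sum, LinearMap.sum_apply, ← hker j i0]
      exact Finset.sum_congr rfl fun i _ => by
        rw [map_smul, LinearMap.smul_apply, smul_eq_mul]
    rw [h6, map_smul, LinearMap.smul_apply, smul_eq_mul] at h7
    rcases mul_eq_zero.1 h7 with h8 | h8
    · rw [h6, h8, zero_smul]
    · exfalso
      apply hd
      rw [← hb0]
      simp only [hb]
      rw [hc i0, map_smul, LinearMap.smul_apply, h8, smul_zero]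
  · apply Finset.sum_eq_zero
    intro i _
    by_cases ha : Act F T d α i j
    · have hv : ¬ Vert F T d α i := fun hv => hex ⟨i, ha, hv⟩
      rw [(h2 i hv).1, map_zero, smul_zero]
    · rw [(hz i j ha).1, smul_zero]

end IsSystem

end Run7.h615.WS
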