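import Mathlib

/-!
# Moments, conjugates and positive semidefinite systems of rank one
-/

set_option autoImplicit false

namespace Run7.h615.WS

open Polynomial Module
open scoped ComplexConjugate

/-- The coefficients of a combination of powers are determined by the moments. -/
lemma moments_unique {L ι : Type*} [Field L] (s : Finset ι) (m : ι → L) (hm : Set.InjOn m s)
    (a b : ι → L) (h : ∀ k : ℕ, ∑ i ∈ s, a i * m i ^ k = ∑ i ∈ s, b i * m i ^ k) :
    ∀ i ∈ s, a i = b i := by
  classical
  have h1 : ∀ P : L[X], ∑ i ∈ s, a i * P.eval (m i) = ∑ i ∈ s, b i * P.eval (m i) := by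
    intro P
    simp only [eval_eq_sum_range, Finset.mul_sum]
    rw [Finset.sum_comm, Finset.sum_comm (s := s)]
    refine Finset.sum_congr rfl fun k _ => ?_
    have h2 := h k
    have h3 := congrArg (fun z => P.coeff k * z) h2
    simp only [Finset.mul_sum] at h3
    convert h3 using 1
    · exact Finset.sum_congr rfl fun i _ => by ring
    · exact Finset.sum_congr rfl fun i _ => by ring
  intro i hi
  set P : L[X] := ∏ j ∈ s.erase i, (X - C (m j)) with hP
  have h2 : ∀ j ∈ s, j ≠ i → P.eval (m j) = 0 := by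
    intro j hj hji
    rw [hP, eval_prod]
    apply Finset.prod_eq_zero (Finset.mem_erase.2 ⟨hji, hj⟩)
    simp
  have h3 : P.eval (m i) ≠ 0 := by
    rw [hP, eval_prod, Finset.prod_ne_zero_iff]
    intro j hj
    obtain ⟨hji, hj'⟩ := Finset.mem_erase.1 hj
    rw [eval_sub, eval_X, eval_C, sub_ne_zero]
    exact fun hc => hji (hm hj' hi hc.symm)
  have h4 := h1 P
  rw [Finset.sum_eq_single_of_mem i hi (fun j hj hji => by rw [h2 j hj hji, mul_zero]),
    Finset.sum_eq_single_of_mem i hi (fun j hj hji => by rw [h2 j hj hji, mul_zero])] at h4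
  exact mul_right_cancel₀ h3 h4

section cj

variable {Ω : Type*} [Field Ω] [CharZero Ω]

/-- If the moments are rational, then the coefficients are algebraic, and they are mapped to their
complex conjugates by the involution of the nodes given by the complex conjugation. -/
lemma conj_of_moments (K : IntermediateField ℚ Ω) (s : Finset Ω) (hs : ∀ μ ∈ s, μ ∈ K)
    (f : K →+* ℂ) (τ : Ω → Ω) (hτ : ∀ k : ℕ, ∃ r : ℚ, ∑ μ ∈ s, τ μ * μ ^ k = r)
    (inv : Ω → Ω) (hinv : ∀ μ ∈ s, inv μ ∈ s) (hii : ∀ μ ∈ s, inv (inv μ) = μ)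
    (hc : ∀ (μ : Ω) (h : μ ∈ s),
      f ⟨inv μ, hs _ (hinv μ h)⟩ = conj (f ⟨μ, hs μ h⟩)) :
    ∀ μ ∈ s, ∃ a b : K, (a : Ω) = τ μ ∧ (b : Ω) = τ (inv μ) ∧ f b = conj (f a) := by
  classical
  obtain ⟨ρ, hρ⟩ := LinearMap.exists_leftInverse_of_injective (Algebra.linearMap K Ω)
    (LinearMap.ker_eq_bot.2 (algebraMap K Ω).injective)
  have hρ' : ∀ x : K, ρ (x : Ω) = x := fun x => LinearMap.congr_fun hρ x
  -- the coefficients are in `K`
  have h1 : ∀ μ ∈ s, τ μ = (ρ (τ μ) : Ω) := by
    apply moments_unique s id (fun x _ y _ h => h)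
    intro k
    obtain ⟨r, hr⟩ := hτ k
    simp only [id]
    rw [hr]
    have h2 : ((ρ (∑ μ ∈ s, τ μ * μ ^ k) : K) : Ω) = (ρ (r : Ω) : Ω) := by rw [hr]
    have h3 : ρ (r : Ω) = (r : K) := by
      have := hρ' (r : K)
      rwa [show ((r : K) : Ω) = (r : Ω) by simp] at this
    rw [h3, map_sum] at h2
    rw [show ((r : K) : Ω) = (r : Ω) by simp] at h2
    rw [← h2]
    push_cast
    refine Finset.sum_congr rfl fun μ hμ => ?_
    have h4 : τ μ * μ ^ k = (⟨μ, hs μ hμ⟩ ^ k : K) • τ μ := by
      rw [Algebra.smul_def]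
      rw [map_pow]
      rw [mul_comm]
      rfl
    rw [h4, map_smul, smul_eq_mul]
    push_cast
    rw [mul_comm]
  -- transport to `ℂ`
  set m : Ω → ℂ := fun μ => if h : μ ∈ s then f ⟨μ, hs μ h⟩ else 0 with hm
  have hm1 : ∀ (μ : Ω) (h : μ ∈ s), m μ = f ⟨μ, hs μ h⟩ := fun μ h => dif_pos h
  have hm2 : Set.InjOn m s := by
    intro x hx y hy h
    rw [hm1 x hx, hm1 y hy] at h
    exact congrArg Subtype.val (f.injective h)
  have hm3 : ∀ μ ∈ s, m (inv μ) = conj (m μ) := fun μ hμ => by
    rw [hm1 _ (hinv μ hμ), hm1 μ hμ]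
    exact hc μ hμ
  have hmom : ∀ k : ℕ, ∃ r : ℚ, ∑ μ ∈ s, f (ρ (τ μ)) * m μ ^ k = r := by
    intro k
    obtain ⟨r, hr⟩ := hτ k
    refine ⟨r, ?_⟩
    have h2 : ∑ μ ∈ s.attach, ρ (τ μ) * (⟨μ, hs μ μ.2⟩ : K) ^ k = (r : K) := by
      apply (algebraMap K Ω).injective
      rw [map_sum]
      show _ = ((r : K) : Ω)
      rw [show ((r : K) : Ω) = (r : Ω) by simp, ← hr, ← Finset.sum_attach s]
      refine Finset.sum_congr rfl fun μ _ => ?_
      rw [map_mul, map_pow]
      show (ρ (τ μ) : Ω) * (μ : Ω) ^ k = _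
      rw [← h1 μ μ.2]
    have h3 := congrArg f h2
    rw [map_sum] at h3
    rw [← Finset.sum_attach s]
    rw [show (r : ℂ) = f (r : K) by simp, ← h3]
    refine Finset.sum_congr rfl fun μ _ => ?_
    rw [hm1 μ μ.2, map_mul, map_pow]
  have hfin : ∀ μ ∈ s, conj (f (ρ (τ μ))) = f (ρ (τ (inv μ))) := by
    have hinj : Set.InjOn (fun μ => m (inv μ)) s := by
      intro x hx y hy h
      have h2 : inv x = inv y := hm2 (hinv x hx) (hinv y hy) h
      rw [← hii x hx, ← hii y hy, h2]
    apply moments_unique s (fun μ => m (inv μ)) hinj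
    intro k
    obtain ⟨r, hr⟩ := hmom k
    have h2 : ∑ μ ∈ s, conj (f (ρ (τ μ))) * m (inv μ) ^ k = r := by
      have h3 := congrArg conj hr
      rw [map_sum] at h3
      rw [show ((r : ℚ) : ℂ) = conj (r : ℂ) by simp, ← h3]
      refine Finset.sum_congr rfl fun μ hμ => ?_
      rw [hm3 μ hμ, map_mul, map_pow]
    have h4 : ∑ μ ∈ s, f (ρ (τ (inv μ))) * m (inv μ) ^ k = r := by
      rw [← hr]
      refine Finset.sum_nbij' inv inv hinv hinv hii hii (fun μ _ => rfl)
    rw [h2, h4]
  intro μ hμ
  exact ⟨ρ (τ μ), ρ (τ (inv μ)), (h1 μ hμ).symm, (h1 _ (hinv μ hμ)).symm, (hfin μ hμ).symm⟩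

end cj

section psd

variable {I J : Type} [Fintype I] [Fintype J]

/-- The kernel of a sum of positive semidefinite Hermitian matrices of rank at most one. -/
lemma psd_kernel (b : J → I → I → ℂ) (hH : ∀ j i i', b j i' i = conj (b j i i'))
    (hR : ∀ j i i' k k', b j i i' * b j k k' = b j i k' * b j k i')
    (hp : ∀ j i, ∃ m : ℕ, b j i i = m) (s : I → ℂ)
    (hs : ∀ i', ∑ j, ∑ i, s i * b j i i' = 0) : ∀ j i', ∑ i, s i * b j i i' = 0 := by
  set Q : J → ℂ := fun j => ∑ i', conj (s i') * ∑ i, s i * b j i i' with hQ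
  have h0 : ∑ j, Q j = 0 := by
    simp only [hQ]
    rw [Finset.sum_comm]
    apply Finset.sum_eq_zero
    intro i' _
    rw [← Finset.mul_sum, hs i', mul_zero]
  -- each `Q j` is nonnegative
  have key : ∀ j, (∀ i i', b j i i' = 0) ∨ ∃ (k : I) (p : ℕ), 0 < p ∧ b j k k = p ∧
      p * Q j = (Complex.normSq (∑ i, s i * b j i k) : ℂ) := by
    intro j
    by_cases hz : ∀ k, b j k k = 0
    · left
      intro i i'
      have h1 := hR j i i' i' i
      rw [hz i, zero_mul, hH j i i', Complex.mul_conj] at h1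
      exact Complex.normSq_eq_zero.1 (by exact_mod_cast h1)
    · right
      push Not at hz
      obtain ⟨k, hk⟩ := hz
      obtain ⟨p, hp'⟩ := hp j k
      refine ⟨k, p, ?_, hp', ?_⟩
      · rcases Nat.eq_zero_or_pos p with h | h
        · rw [h, Nat.cast_zero] at hp'
          exact absurd hp' hk
        · exact h
      · rw [← Complex.mul_conj, map_sum, ← hp']
        simp only [hQ]
        rw [Finset.mul_sum, Finset.mul_sum]
        refine Finset.sum_congr rfl fun i' _ => ?_
        rw [map_mul, ← hH j i' k, Finset.mul_sum, Finset.mul_sum, Finset.sum_mul]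
        refine Finset.sum_congr rfl fun i _ => ?_
        have h1 := hR j k k i i'
        linear_combination (conj (s i') * s i) * h1
  have hre : ∀ j, 0 ≤ (Q j).re := by
    intro j
    rcases key j with h | ⟨k, p, hp0, -, h⟩
    · have : Q j = 0 := by
        simp only [hQ, h, mul_zero, Finset.sum_const_zero]
      rw [this, Complex.zero_re]
    · have h1 := congrArg Complex.re h
      rw [Complex.ofReal_re] at h1
      have h2 : ((p : ℂ) * Q j).re = p * (Q j).re := by
        simp
      rw [h2] at h1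
      have h3 : (0 : ℝ) ≤ p * (Q j).re := by
        rw [h1]
        exact Complex.normSq_nonneg _
      exact nonneg_of_mul_nonneg_right h3 (by exact_mod_cast hp0)
  have hre0 : ∀ j, (Q j).re = 0 := by
    have h1 := congrArg Complex.re h0
    rw [Complex.re_sum, Complex.zero_re] at h1
    intro j
    exact (Finset.sum_eq_zero_iff_of_nonneg (fun j _ => hre j)).1 h1 j (Finset.mem_univ j)
  intro j i'
  rcases key j with h | ⟨k, p, hp0, hk, h⟩
  · simp only [h, mul_zero, Finset.sum_const_zero]
  · have h1 := congrArg Complex.re h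
    rw [Complex.ofReal_re] at h1
    have h2 : ((p : ℂ) * Q j).re = p * (Q j).re := by
      simp
    rw [h2, hre0 j, mul_zero] at h1
    have h3 : ∑ i, s i * b j i k = 0 := Complex.normSq_eq_zero.1 h1.symm
    have h4 : (p : ℂ) * ∑ i, s i * b j i i' = (∑ i, s i * b j i k) * b j k i' := by
      rw [Finset.mul_sum, Finset.sum_mul]
      refine Finset.sum_congr rfl fun i _ => ?_
      have h5 := hR j k k i i'
      rw [hk] at h5
      linear_combination (s i) * h5
    rw [h3, zero_mul] at h4
    rcases mul_eq_zero.1 h4 with h5 | h5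
    · exact absurd h5 (by exact_mod_cast hp0.ne')
    · exact h5

variable {Ω : Type*} [Field Ω] [CharZero Ω]

/-- The same over an extension of a subfield of `ℂ`. -/
lemma psd_kernel' (K : IntermediateField ℚ Ω) (f : K →+* ℂ) (b : J → I → I → Ω)
    (bK : J → I → I → K) (hb : ∀ j i i', (bK j i i' : Ω) = b j i i')
    (hH : ∀ j i i', f (bK j i' i) = conj (f (bK j i i')))
    (hR : ∀ j i i' k k', b j i i' * b j k k' = b j i k' * b j k i')
    (hp : ∀ j i, ∃ m : ℕ, b j i i = m) (t : I → Ω)
    (ht : ∀ i', ∑ j, ∑ i, t i * b j i i' = 0) : ∀ j i', ∑ i, t i * b j i i' = 0 := by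
  intro j i'
  rw [← Module.forall_dual_apply_eq_zero_iff K]
  intro φ
  have hφ : ∀ (x : Ω) (y : K), φ (x * (y : Ω)) = φ x * y := by
    intro x y
    have : x * (y : Ω) = y • x := by
      rw [Algebra.smul_def, mul_comm]
      rfl
    rw [this, map_smul, smul_eq_mul, mul_comm]
  have h1 : ∀ j i', φ (∑ i, t i * b j i i') = ∑ i, φ (t i) * bK j i i' := by
    intro j i'
    rw [map_sum]
    exact Finset.sum_congr rfl fun i _ => by rw [← hb, hφ]
  apply f.injective
  rw [h1, map_zero, map_sum]
  have h2 := psd_kernel (fun j i i' => f (bK j i i')) hH (fun j i i' k k' => by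
      rw [← map_mul, ← map_mul]
      congr 1
      apply (algebraMap K Ω).injective
      rw [map_mul, map_mul]
      show (bK j i i' : Ω) * (bK j k k' : Ω) = (bK j i k' : Ω) * (bK j k i' : Ω)
      rw [hb, hb, hb, hb, hR]) (fun j i => by
      obtain ⟨m, hm⟩ := hp j i
      refine ⟨m, ?_⟩
      have : bK j i i = (m : K) := by
        apply (algebraMap K Ω).injective
        show (bK j i i : Ω) = ((m : K) : Ω)
        rw [hb, hm]
        simp
      show f (bK j i i) = m
      rw [this, map_natCast]) (fun i => f (φ (t i))) (fun i' => by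
      have h3 := congrArg φ (ht i')
      rw [map_sum, map_zero] at h3
      simp only [h1] at h3
      have h4 := congrArg f h3
      rw [map_zero, map_sum] at h4
      rw [← h4]
      refine Finset.sum_congr rfl fun j _ => ?_
      rw [map_sum]
      exact Finset.sum_congr rfl fun i _ => by rw [map_mul]) j i'
  rw [← h2]
  exact Finset.sum_congr rfl fun i _ => by rw [map_mul]

end psd

end Run7.h615.WS
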